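import Pool.Agent.Run7.h523.WF.Haus

set_option autoImplicit false

/-!
# Sets of slopes of positive measure are large
-/

open MeasureTheory Set Metric Filter Topology
open scoped ENNReal NNReal

namespace Run7.h523.WF

/-- Polar coordinates: if `V` has positive measure then many spheres meet it in positive measure. -/
theorem polar_pos {d : ℕ} {V : Set (E d)} (hVm : MeasurableSet V) (hV : 0 < volume V)
    (hd : 1 ≤ d) :
    0 < volume {r : ℝ | 0 < r ∧ 0 < sg d {ω | r • (ω : E d) ∈ V}} := by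
  classical
  have hnt : Nontrivial (E d) := by
    haveI : Nonempty (Fin d) := ⟨⟨0, hd⟩⟩
    infer_instance
  by_contra hcon
  have hz : volume {r : ℝ | 0 < r ∧ 0 < sg d {ω | r • (ω : E d) ∈ V}} = 0 := by
    simpa using hcon
  have mp := (volume : Measure (E d)).measurePreserving_homeomorphUnitSphereProd
  set P : Set (sphere (0 : E d) 1 × Ioi (0 : ℝ)) := {p | (p.2 : ℝ) • (p.1 : E d) ∈ V} with hP
  have hPm : MeasurableSet P := by
    have : Measurable (fun p : sphere (0 : E d) 1 × Ioi (0 : ℝ) => (p.2 : ℝ) • (p.1 : E d)) := by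
      fun_prop
    exact this hVm
  have h1 : ((volume : Measure (E d)).toSphere.prod
      (Measure.volumeIoiPow (Module.finrank ℝ (E d) - 1))) P = 0 := by
    rw [Measure.prod_apply_symm hPm, lintegral_eq_zero_iff (measurable_measure_prodMk_right hPm)]
    have h2 : volume.comap (Subtype.val : Ioi (0:ℝ) → ℝ)
        {r : Ioi (0 : ℝ) | ¬ (volume : Measure (E d)).toSphere ((fun x => (x, r)) ⁻¹' P) = 0} = 0 := by
      rw [(MeasurableEmbedding.subtype_coe measurableSet_Ioi).comap_apply]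
      refine measure_mono_null ?_ hz
      rintro _ ⟨r, hr, rfl⟩
      refine ⟨r.2, pos_iff_ne_zero.2 ?_⟩
      exact hr
    have h3 : (Measure.volumeIoiPow (Module.finrank ℝ (E d) - 1))
        {r : Ioi (0 : ℝ) | ¬ (volume : Measure (E d)).toSphere ((fun x => (x, r)) ⁻¹' P) = 0} = 0 :=
      withDensity_absolutelyContinuous _ _ h2
    exact h3
  have h2 : (volume.comap (Subtype.val : ({0}ᶜ : Set (E d)) → E d))
      ((homeomorphUnitSphereProd (E d)) ⁻¹' P) = 0 := by
    rw [mp.measure_preimage hPm.nullMeasurableSet]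
    exact h1
  rw [(MeasurableEmbedding.subtype_coe (measurableSet_singleton (0 : E d)).compl).comap_apply] at h2
  have h3 : V ⊆ (Subtype.val '' ((homeomorphUnitSphereProd (E d)) ⁻¹' P)) ∪ {0} := by
    intro v hv
    by_cases h0 : v = 0
    · right; exact h0
    · left
      refine ⟨⟨v, h0⟩, ?_, rfl⟩
      rw [mem_preimage, hP, Set.mem_ofPred_eq]
      have e : ((homeomorphUnitSphereProd (E d)) ⟨v, h0⟩).2.1 •
          (((homeomorphUnitSphereProd (E d)) ⟨v, h0⟩).1 : E d) = v := by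
        simp only [homeomorphUnitSphereProd_apply_snd_coe, homeomorphUnitSphereProd_apply_fst_coe]
        rw [smul_smul, mul_inv_cancel₀ (norm_ne_zero_iff.2 h0), one_smul]
      rw [e]
      exact hv
  have h4 : volume V = 0 := by
    refine measure_mono_null h3 (measure_union_null h2 ?_)
    exact measure_singleton _
  exact hV.ne' h4

theorem big_of_pos {d : ℕ} {V : Set (E d)} (hVm : MeasurableSet V) (hV : 0 < volume V)
    (hd : 1 ≤ d) : ∃ ρ₀ > 0, ∃ ρ₁ > 0, ∃ η > 0, Big ρ₀ ρ₁ η V := by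
  have h1 := polar_pos hVm hV hd
  have hcov : {r : ℝ | 0 < r ∧ 0 < sg d {ω | r • (ω : E d) ∈ V}} ⊆
      ⋃ n : ℕ, {r : ℝ | r ∈ Icc (1 / ((n : ℝ) + 1)) ((n : ℝ) + 1) ∧
        ENNReal.ofReal (1 / ((n : ℝ) + 1)) ≤ sg d {ω | r • (ω : E d) ∈ V}} := by
    rintro r ⟨hr, hs⟩
    obtain ⟨n₁, hn₁⟩ := exists_nat_gt r
    obtain ⟨n₂, hn₂⟩ := exists_nat_gt (1 / r)
    obtain ⟨n₃, hn₃⟩ := ENNReal.exists_inv_nat_lt hs.ne'
    set n := n₁ + n₂ + n₃ with hn
    have e1 : (n₁ : ℝ) ≤ n := by exact_mod_cast (by omega : n₁ ≤ n)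
    have e2 : (n₂ : ℝ) ≤ n := by exact_mod_cast (by omega : n₂ ≤ n)
    have e3 : (n₃ : ℝ) ≤ n := by exact_mod_cast (by omega : n₃ ≤ n)
    refine mem_iUnion.2 ⟨n, ⟨?_, by linarith⟩, ?_⟩
    · rw [div_le_iff₀ (by positivity)]
      rw [div_lt_iff₀ hr] at hn₂
      nlinarith
    · refine le_trans ?_ hn₃.le
      rw [one_div, ENNReal.ofReal_inv_of_pos (by positivity)]
      apply ENNReal.inv_le_inv.2
      rw [← ENNReal.ofReal_natCast]
      apply ENNReal.ofReal_le_ofReal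
      linarith
  have h2 : ∃ n : ℕ, 0 < volume {r : ℝ | r ∈ Icc (1 / ((n : ℝ) + 1)) ((n : ℝ) + 1) ∧
        ENNReal.ofReal (1 / ((n : ℝ) + 1)) ≤ sg d {ω | r • (ω : E d) ∈ V}} := by
    by_contra hcon
    push Not at hcon
    have h3 : volume (⋃ n : ℕ, {r : ℝ | r ∈ Icc (1 / ((n : ℝ) + 1)) ((n : ℝ) + 1) ∧
        ENNReal.ofReal (1 / ((n : ℝ) + 1)) ≤ sg d {ω | r • (ω : E d) ∈ V}}) = 0 :=
      measure_iUnion_null fun n => le_antisymm (hcon n) zero_le
    exact h1.ne' (measure_mono_null hcov h3)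
  obtain ⟨n, hn⟩ := h2
  set m := volume {r : ℝ | r ∈ Icc (1 / ((n : ℝ) + 1)) ((n : ℝ) + 1) ∧
        ENNReal.ofReal (1 / ((n : ℝ) + 1)) ≤ sg d {ω | r • (ω : E d) ∈ V}} with hm
  have hmt : m ≠ ∞ := by
    refine (lt_of_le_of_lt (measure_mono fun r hr => hr.1) ?_).ne
    rw [Real.volume_Icc]
    exact ENNReal.ofReal_lt_top
  have hm0 : 0 < m.toReal := ENNReal.toReal_pos hn.ne' hmt
  refine ⟨1 / ((n : ℝ) + 1), by positivity, (n : ℝ) + 1, by positivity,
    min m.toReal (1 / ((n : ℝ) + 1)), lt_min hm0 (by positivity), ?_⟩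
  unfold Big
  calc ENNReal.ofReal (min m.toReal (1 / ((n : ℝ) + 1))) ≤ ENNReal.ofReal m.toReal :=
        ENNReal.ofReal_le_ofReal (min_le_left _ _)
    _ = m := ENNReal.ofReal_toReal hmt
    _ ≤ _ := by
        rw [hm]
        apply measure_mono
        rintro r ⟨h3, h4⟩
        exact ⟨h3, (ENNReal.ofReal_le_ofReal (min_le_right _ _)).trans h4⟩

end Run7.h523.WF
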