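import Pool.Agent.H742R2.Kk.Coord
import Pool.Agent.Run7.h523.WF.Polar

set_option autoImplicit false

/-!
# Coordinates adapted to an axis
-/

open MeasureTheory Set Metric Filter Topology
open scoped ENNReal NNReal Pointwise

namespace Run7.h523.WF

open Pool.Agent.H742R2.Kk (ins tl ins_zero tl_ins ins_eta inner_ins measurePreserving_ins ins_add
  ins_smul ins_apply_zero)

variable {d : ℕ}

theorem exists_rot (u : E (d + 1)) (hu : ‖u‖ = 1) :
    ∃ L : E (d + 1) ≃ₗᵢ[ℝ] E (d + 1), L u = ins 1 0 := by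
  have hon : Orthonormal ℝ (({0} : Set (Fin (d + 1))).domRestrict (fun _ => u)) := by
    rw [orthonormal_iff_ite]
    rintro ⟨i, hi⟩ ⟨j, hj⟩
    rw [mem_singleton_iff] at hi hj
    subst hi; subst hj
    simp [Set.domRestrict, hu]
  obtain ⟨b, hb⟩ := hon.exists_orthonormalBasis_extension_of_card_eq (by simp)
  refine ⟨b.repr, ?_⟩
  have h0 : b 0 = u := hb 0 (mem_singleton _)
  rw [← h0, b.repr_self]
  ext i
  refine Fin.cases ?_ (fun j => ?_) i
  · simp [ins]
  · simp [ins]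

/-- The point at height `t₀ + t` over `z`, in coordinates in which `u` is the vertical unit
vector. -/
noncomputable def Phi (L : E (d + 1) ≃ₗᵢ[ℝ] E (d + 1)) (t₀ : ℝ) (p : E d × ℝ) : E (d + 1) :=
  L.symm (ins (t₀ + p.2) p.1)

variable (L : E (d + 1) ≃ₗᵢ[ℝ] E (d + 1))

theorem ins_sub (r s : ℝ) (z w : E d) : ins r z - ins s w = ins (r - s) (z - w) := by
  have h1 : ins r z = ins s w + ins (r - s) (z - w) := by
    rw [← ins_add]
    congr 1 <;> abel
  rw [h1]; abel

theorem norm_ins_sq (r : ℝ) (z : E d) : ‖ins r z‖ ^ 2 = r ^ 2 + ‖z‖ ^ 2 := by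
  rw [← real_inner_self_eq_norm_sq, inner_ins, real_inner_self_eq_norm_sq]; ring

theorem Phi_sub (t₀ : ℝ) (p q : E d × ℝ) :
    Phi L t₀ p - Phi L t₀ q = L.symm (ins (p.2 - q.2) (p.1 - q.1)) := by
  unfold Phi
  rw [← map_sub, ins_sub]
  congr 2
  ring

theorem norm_Phi_sub_sq (t₀ : ℝ) (p q : E d × ℝ) :
    ‖Phi L t₀ p - Phi L t₀ q‖ ^ 2 = (p.2 - q.2) ^ 2 + ‖p.1 - q.1‖ ^ 2 := by
  rw [Phi_sub, LinearIsometryEquiv.norm_map, norm_ins_sq]

theorem inner_symm {u : E (d + 1)} (hu : L u = ins 1 0) (r : ℝ) (z : E d) :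
    inner ℝ u (L.symm (ins r z)) = r := by
  have h1 : inner ℝ u (L.symm (ins r z)) = inner ℝ (L u) (L (L.symm (ins r z))) :=
    (L.inner_map_map _ _).symm
  rw [h1, hu, L.apply_symm_apply, inner_ins]
  simp

theorem inner_Phi_sub {u : E (d + 1)} (hu : L u = ins 1 0) (t₀ : ℝ) (p q : E d × ℝ) :
    inner ℝ u (Phi L t₀ p - Phi L t₀ q) = p.2 - q.2 := by
  rw [Phi_sub, inner_symm L hu]

theorem Phi_antilipschitz (t₀ : ℝ) : AntilipschitzWith 1 (Phi L t₀ : E d × ℝ → E (d + 1)) := by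
  apply AntilipschitzWith.of_le_mul_dist
  intro p q
  rw [NNReal.coe_one, one_mul, dist_eq_norm (Phi L t₀ p), Prod.dist_eq, dist_eq_norm, dist_eq_norm,
    Real.norm_eq_abs]
  have h := norm_Phi_sub_sq L t₀ p q
  have h0 := norm_nonneg (Phi L t₀ p - Phi L t₀ q)
  refine max_le ?_ ?_
  · apply le_of_sq_le_sq _ h0
    rw [h]; nlinarith [sq_nonneg (p.2 - q.2)]
  · apply le_of_sq_le_sq _ h0
    rw [h, sq_abs]; nlinarith [sq_nonneg ‖p.1 - q.1‖]

theorem measurePreserving_Phi (t₀ : ℝ) :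
    MeasurePreserving (Phi L t₀ : E d × ℝ → E (d + 1)) volume volume := by
  have h1 : MeasurePreserving (fun p : E d × ℝ => (p.2, p.1)) volume
      (volume : Measure (ℝ × E d)) := Measure.measurePreserving_swap
  have h2 : MeasurePreserving (fun p : ℝ × E d => (t₀ + p.1, p.2)) volume
      (volume : Measure (ℝ × E d)) :=
    (measurePreserving_add_left volume t₀).prod (MeasurePreserving.id volume)
  exact L.symm.measurePreserving.comp (measurePreserving_ins.comp (h2.comp h1))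

theorem dimH_preimage_Phi (t₀ : ℝ) (K : Set (E (d + 1))) :
    dimH (Phi L t₀ ⁻¹' K) ≤ dimH K :=
  (Phi_antilipschitz L t₀).dimH_preimage_le K

end Run7.h523.WF
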