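import Pool.Agent.Run7.h523.WF.Mass

set_option autoImplicit false

/-!
# Hausdorff dimension of unions of wave fronts, slope coordinates
-/

open MeasureTheory Set Metric Filter Topology
open scoped ENNReal NNReal

namespace Run7.h523.WF

/-- Sets of Hausdorff measure zero have efficient covers. -/
theorem small_cover {X : Type*} [MetricSpace X] [MeasurableSpace X] [BorelSpace X] {K : Set X}
    {s : ℝ} (hs : 0 < s) (hz : μH[s] K = 0) {ε : ℝ} (hε : 0 < ε) :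
    ∃ (t : ℕ → Set X) (r : ℕ → ℝ), K ⊆ ⋃ i, t i ∧ (∀ i, 0 < r i) ∧
      (∀ i, ∀ x ∈ t i, ∀ y ∈ t i, dist x y ≤ r i) ∧
      ∑' i, ENNReal.ofReal (r i ^ s) ≤ ENNReal.ofReal (2 * ε) := by
  classical
  rw [Measure.hausdorffMeasure_apply] at hz
  have h1 : (⨅ (t : ℕ → Set X) (_ : K ⊆ ⋃ n, t n)
      (_ : ∀ n, ediam (t n) ≤ ENNReal.ofReal (1 / 2)),
        ∑' n, ⨆ _ : (t n).Nonempty, ediam (t n) ^ s) = 0 := by
    have := (ENNReal.iSup_eq_zero.1 hz (ENNReal.ofReal (1 / 2)))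
    exact ENNReal.iSup_eq_zero.1 this (by simp)
  have h2 : (⨅ (t : ℕ → Set X) (_ : K ⊆ ⋃ n, t n)
      (_ : ∀ n, ediam (t n) ≤ ENNReal.ofReal (1 / 2)),
        ∑' n, ⨆ _ : (t n).Nonempty, ediam (t n) ^ s) < ENNReal.ofReal ε := by
    rw [h1]
    simpa using hε
  simp only [iInf_lt_iff] at h2
  obtain ⟨t, ht1, ht2, ht3⟩ := h2
  obtain ⟨η, hη0, hηs⟩ := ENNReal.exists_pos_sum_of_countable
    (ε := ENNReal.ofReal ε) (by simpa using hε) ℕ
  set D : ℕ → ℝ := fun i => (ediam (t i)).toReal with hD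
  have hDt : ∀ i, ediam (t i) ≠ ∞ := fun i => ((ht2 i).trans_lt ENNReal.ofReal_lt_top).ne
  have hD0 : ∀ i, 0 ≤ D i := fun i => ENNReal.toReal_nonneg
  have hη0' : ∀ i, (0 : ℝ) < η i := fun i => by exact_mod_cast hη0 i
  set θ : ℕ → ℝ := fun i => (η i : ℝ) ^ (1 / s) with hθ
  have hθ0 : ∀ i, 0 < θ i := fun i => Real.rpow_pos_of_pos (hη0' i) _
  have hθs : ∀ i, θ i ^ s = η i := by
    intro i
    simp only [hθ]
    rw [← Real.rpow_mul (hη0' i).le, one_div, inv_mul_cancel₀ hs.ne', Real.rpow_one]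
  set r : ℕ → ℝ := fun i => if (t i).Nonempty then max (D i) (θ i) else θ i with hr
  refine ⟨t, r, ht1, ?_, ?_, ?_⟩
  · intro i
    simp only [hr]
    split_ifs
    · exact lt_max_of_lt_right (hθ0 i)
    · exact hθ0 i
  · intro i x hx y hy
    have hne : (t i).Nonempty := ⟨x, hx⟩
    have h3 : edist x y ≤ ediam (t i) := edist_le_ediam_of_mem hx hy
    have h4 : dist x y ≤ D i := by
      rw [edist_dist] at h3
      have := ENNReal.toReal_mono (hDt i) h3
      rwa [ENNReal.toReal_ofReal dist_nonneg] at this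
    simp only [hr, hne, if_true]
    exact h4.trans (le_max_left _ _)
  · calc ∑' i, ENNReal.ofReal (r i ^ s)
        ≤ ∑' i, ((⨆ _ : (t i).Nonempty, ediam (t i) ^ s) + (η i : ℝ≥0∞)) := by
          apply ENNReal.tsum_le_tsum
          intro i
          by_cases hne : (t i).Nonempty
          · simp only [hne, ciSup_unique]
            have h7 : r i ^ s ≤ D i ^ s + η i := by
              simp only [hr, hne, if_true]
              rcases le_total (D i) (θ i) with h | h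
              · rw [max_eq_right h, hθs]
                have := Real.rpow_nonneg (hD0 i) s
                linarith
              · rw [max_eq_left h]
                linarith [hη0' i]
            refine (ENNReal.ofReal_le_ofReal h7).trans ?_
            rw [ENNReal.ofReal_add (Real.rpow_nonneg (hD0 i) _) (hη0' i).le]
            apply add_le_add
            · rw [← ENNReal.ofReal_rpow_of_nonneg (hD0 i) hs.le]
              simp only [hD]
              rw [ENNReal.ofReal_toReal (hDt i)]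
            · simp
          · have h7 : r i ^ s = η i := by
              simp only [hr, hne, if_false]
              exact hθs i
            rw [h7]
            simp
      _ = (∑' i, (⨆ _ : (t i).Nonempty, ediam (t i) ^ s)) + ∑' i, (η i : ℝ≥0∞) := by
          rw [ENNReal.tsum_add]
      _ ≤ ENNReal.ofReal ε + ENNReal.ofReal ε := by gcongr
      _ = _ := by
          rw [← ENNReal.ofReal_add hε.le hε.le]
          congr 1
          ring

theorem weights : ∃ c₀ : ℝ, 0 < c₀ ∧ ∑' j : ℕ, ENNReal.ofReal (c₀ / ((j : ℝ) + 1) ^ 2) < 1 := by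
  have hsum : Summable (fun j : ℕ => 1 / ((j : ℝ) + 1) ^ 2) := by
    have h := (summable_nat_add_iff 1).2 (Real.summable_one_div_nat_pow.2 (by norm_num : 1 < 2))
    simpa using h
  set S := ∑' j : ℕ, 1 / ((j : ℝ) + 1) ^ 2 with hS
  have hS0 : 0 ≤ S := tsum_nonneg fun j => by positivity
  refine ⟨1 / (2 * (S + 1)), by positivity, ?_⟩
  have e : ∀ j : ℕ, 1 / (2 * (S + 1)) / ((j : ℝ) + 1) ^ 2 =
      1 / (2 * (S + 1)) * (1 / ((j : ℝ) + 1) ^ 2) := fun j => by ring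
  simp_rw [e]
  rw [← ENNReal.ofReal_tsum_of_nonneg (fun j => by positivity) (hsum.mul_left _), tsum_mul_left,
    ← hS, ← ENNReal.ofReal_one]
  apply (ENNReal.ofReal_lt_ofReal_iff one_pos).2
  rw [div_mul_eq_mul_div, one_mul, div_lt_one (by positivity)]
  linarith

theorem asym {C c θ : ℝ} (hc : 0 < c) (hθ0 : 0 < θ) (hθ : θ < 1) (p : ℕ) :
    ∀ᶠ k : ℕ in atTop, C * (((k : ℝ) + 1) ^ p * θ ^ k) < c := by
  have h1 := tendsto_pow_const_mul_const_pow_of_abs_lt_one p (r := θ) (by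
    rw [abs_of_pos hθ0]; exact hθ)
  have h2 : Tendsto (fun k : ℕ => (((k + 1 : ℕ) : ℝ)) ^ p * θ ^ (k + 1)) atTop (𝓝 0) :=
    h1.comp (tendsto_add_atTop_nat 1)
  have h3 : Tendsto (fun k : ℕ => C / θ * ((((k + 1 : ℕ) : ℝ)) ^ p * θ ^ (k + 1))) atTop
      (𝓝 (C / θ * 0)) := h2.const_mul _
  rw [mul_zero] at h3
  filter_upwards [h3.eventually (gt_mem_nhds hc)] with k hk
  have e : C / θ * ((((k + 1 : ℕ) : ℝ)) ^ p * θ ^ (k + 1)) = C * (((k : ℝ) + 1) ^ p * θ ^ k) := by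
    push_cast
    field_simp
    ring
  rwa [e] at hk

theorem vol_ball2 {d : ℕ} {δ : ℝ} (hδ : 0 < δ) (y : E d × ℝ) :
    volume (ball y (2 * δ)) =
      ENNReal.ofReal ((volume (ball (0 : E d) 1)).toReal * 2 ^ (d + 2) * δ ^ (d + 1)) := by
  have h1 : ball y (2 * δ) = ball y.1 (2 * δ) ×ˢ ball y.2 (2 * δ) := by
    rw [ball_prod_same]
  rw [h1, Measure.volume_eq_prod, Measure.prod_prod, Measure.addHaar_ball_of_pos _ _
    (by positivity : (0:ℝ) < 2 * δ), Real.volume_ball, finrank_euclideanSpace_fin]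
  have h2 : volume (ball (0 : E d) 1) = ENNReal.ofReal (volume (ball (0 : E d) 1)).toReal :=
    (ENNReal.ofReal_toReal measure_ball_lt_top.ne).symm
  rw [h2, ← ENNReal.ofReal_mul (by positivity), ← ENNReal.ofReal_mul (by positivity),
    ENNReal.toReal_ofReal ENNReal.toReal_nonneg]
  congr 1
  ring

/-- **Hausdorff dimension, slope coordinates, uniform lengths.** -/
theorem haus_aux {d : ℕ} {ρ₀ ρ₁ T η lam : ℝ} (hρ : 0 < ρ₀) (hρ1 : 0 ≤ ρ₁) (hT : 0 < T)
    (hη : 0 < η) (hlam : 0 < lam) (A : Set (E d)) (a : E d → E d) (K : Set (E d × ℝ))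
    (hBig : Big ρ₀ ρ₁ η A)
    (hach : ∀ v ∈ A, ∀ v' ∈ A, ‖v‖ = ‖v'‖ → Achr T (a v) v (a v') v')
    (hK : ∀ v ∈ A, ENNReal.ofReal lam ≤
      volume {t : ℝ | t ∈ Icc (T / 4) (T / 2) ∧ (a v + t • v, t) ∈ K}) :
    ((d + 1 : ℕ) : ℝ≥0∞) ≤ dimH K := by
  classical
  by_contra hcon
  rw [not_le] at hcon
  obtain ⟨s', hs1, hs2⟩ := ENNReal.lt_iff_exists_nnreal_btwn.1 hcon
  have hz : μH[(s' : ℝ)] K = 0 := hausdorffMeasure_of_dimH_lt hs1
  set s : ℝ := (s' : ℝ) with hs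
  have hs0 : 0 < s := by
    have : (0 : ℝ≥0∞) < (s' : ℝ≥0∞) := lt_of_le_of_lt zero_le hs1
    exact_mod_cast this
  have hsd : s < (d : ℝ) + 1 := by
    have : (s' : ℝ≥0∞) < (((d + 1 : ℕ) : ℝ≥0) : ℝ≥0∞) := by simpa using hs2
    have h : s' < ((d + 1 : ℕ) : ℝ≥0) := by exact_mod_cast this
    have h' : (s' : ℝ) < (((d + 1 : ℕ) : ℝ≥0) : ℝ) := by exact_mod_cast h
    simpa using h'
  obtain ⟨c, hc, hmass⟩ := mass (d := d) hρ hρ1 hT
  obtain ⟨c₀, hc₀, hw⟩ := weights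
  set b : ℝ := (volume (ball (0 : E d) 1)).toReal with hb
  have hb0 : 0 ≤ b := ENNReal.toReal_nonneg
  set θ : ℝ := (1 / 2 : ℝ) ^ ((d : ℝ) + 1 - s) with hθ
  have hθ0 : 0 < θ := by positivity
  have hθ1 : θ < 1 := Real.rpow_lt_one (by norm_num) (by norm_num) (by linarith)
  set C : ℝ := b * 2 ^ (d + 2) * 2 ^ s * Real.log 2 with hC
  have hev := asym (C := C) (c := c * (η * lam * c₀ ^ 2) ^ 2) (by positivity) hθ0 hθ1 9
  have hev2 : ∀ᶠ k : ℕ in atTop, 8 * (1 / 2 : ℝ) ^ k / T ≤ ρ₀ := by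
    have h1 : Tendsto (fun k : ℕ => 8 / T * (1 / 2 : ℝ) ^ k) atTop (𝓝 (8 / T * 0)) :=
      (tendsto_pow_atTop_nhds_zero_of_lt_one (by norm_num) (by norm_num)).const_mul _
    rw [mul_zero] at h1
    filter_upwards [h1.eventually (gt_mem_nhds hρ)] with k hk
    have e : 8 * (1 / 2 : ℝ) ^ k / T = 8 / T * (1 / 2 : ℝ) ^ k := by ring
    rw [e]
    exact hk.le
  obtain ⟨k₀, hk₀⟩ := eventually_atTop.1 (hev.and (hev2.and (eventually_ge_atTop 1)))
  obtain ⟨t, r, hKt, hr0, hrt, hrs⟩ := small_cover (K := K) hs0 hz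
    (ε := ((1 / 2 : ℝ) ^ k₀) ^ s / 2) (by positivity)
  have hrs' : ∑' i, ENNReal.ofReal (r i ^ s) ≤ ENNReal.ofReal (((1 / 2 : ℝ) ^ k₀) ^ s) := by
    refine hrs.trans (le_of_eq ?_)
    congr 1
    ring
  have hr1 : ∀ i, r i ≤ (1 / 2 : ℝ) ^ k₀ := by
    intro i
    have h1 := (ENNReal.le_tsum (f := fun i => ENNReal.ofReal (r i ^ s)) i).trans hrs'
    rw [ENNReal.ofReal_le_ofReal_iff (by positivity)] at h1
    exact (Real.rpow_le_rpow_iff (hr0 i).le (by positivity) hs0).1 h1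
  have hone : ((1 / 2 : ℝ) ^ k₀) ^ s ≤ 1 := by
    apply Real.rpow_le_one (by positivity) (pow_le_one₀ (by norm_num) (by norm_num)) hs0.le
  have hrs1 : ∑' i, ENNReal.ofReal (r i ^ s) ≤ 1 := by
    refine hrs'.trans ?_
    rw [← ENNReal.ofReal_one]
    exact ENNReal.ofReal_le_ofReal hone
  -- classes
  set I : ℕ → Set ℕ := fun k => {i | (1 / 2 : ℝ) ^ (k + 1) < r i ∧ r i ≤ (1 / 2 : ℝ) ^ k} with hI
  have hIex : ∀ i, ∃ k, i ∈ I k := fun i =>
    exists_nat_pow_near_of_lt_one (hr0 i) ((hr1 i).trans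
      (pow_le_one₀ (by norm_num) (by norm_num))) (by norm_num) (by norm_num)
  have hIk : ∀ k i, i ∈ I k → k₀ ≤ k := by
    intro k i hi
    by_contra hc
    rw [not_le] at hc
    have h1 : (1 / 2 : ℝ) ^ k₀ ≤ (1 / 2 : ℝ) ^ (k + 1) :=
      pow_le_pow_of_le_one (by norm_num) (by norm_num) hc
    exact absurd ((hr1 i).trans h1) (not_le.2 hi.1)
  set J : ℕ → E d → Set ℝ := fun k v =>
    Icc (T / 4) (T / 2) ∩ ⋃ i ∈ I k, {τ : ℝ | (a v + τ • v, τ) ∈ closure (t i)} with hJ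
  have hJm : ∀ k v, MeasurableSet (J k v) := by
    intro k v
    refine measurableSet_Icc.inter (MeasurableSet.biUnion (to_countable _) fun i _ => ?_)
    have hcont : Continuous (fun τ : ℝ => (a v + τ • v, τ)) := by fun_prop
    exact (isClosed_closure.preimage hcont).measurableSet
  have hJcov : ∀ v, {τ : ℝ | τ ∈ Icc (T / 4) (T / 2) ∧ (a v + τ • v, τ) ∈ K} ⊆ ⋃ k, J k v := by
    rintro v τ ⟨h1, h2⟩
    obtain ⟨i, hi⟩ := mem_iUnion.1 (hKt h2)
    obtain ⟨k, hk⟩ := hIex i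
    exact mem_iUnion.2 ⟨k, h1, mem_iUnion₂.2 ⟨i, hk, subset_closure hi⟩⟩
  set w : ℕ → ℝ := fun k => c₀ / ((k : ℝ) + 1) ^ 2 with hwdef
  have hw0 : ∀ k, 0 < w k := fun k => by simp only [hwdef]; positivity
  have hAcov : A ⊆ ⋃ k, {v | v ∈ A ∧ ENNReal.ofReal (lam * w k) ≤ volume (J k v)} := by
    intro v hv
    by_contra hc
    rw [mem_iUnion, not_exists] at hc
    have h1 : ∀ k, volume (J k v) < ENNReal.ofReal (lam * w k) := by
      intro k
      by_contra h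
      exact hc k ⟨hv, not_lt.1 h⟩
    have h2 : ENNReal.ofReal lam ≤ ∑' k, ENNReal.ofReal (lam * w k) :=
      (hK v hv).trans ((measure_mono (hJcov v)).trans ((measure_iUnion_le _).trans
        (ENNReal.tsum_le_tsum fun k => (h1 k).le)))
    have h3 : ∑' k, ENNReal.ofReal (lam * w k) < ENNReal.ofReal lam := by
      have : ∀ k, ENNReal.ofReal (lam * w k) = ENNReal.ofReal lam * ENNReal.ofReal (w k) :=
        fun k => ENNReal.ofReal_mul hlam.le
      simp_rw [this]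
      rw [ENNReal.tsum_mul_left]
      calc ENNReal.ofReal lam * ∑' k, ENNReal.ofReal (w k) < ENNReal.ofReal lam * 1 :=
            (ENNReal.mul_lt_mul_iff_right (ENNReal.ofReal_pos.2 hlam).ne'
              ENNReal.ofReal_ne_top).2 hw
        _ = _ := mul_one _
    exact absurd h2 (not_le.2 h3)
  obtain ⟨k, hk⟩ := hBig.exists_of_cover hη _ hAcov w hw
  set Ak : Set (E d) := {v | v ∈ A ∧ ENNReal.ofReal (lam * w k) ≤ volume (J k v)} with hAk
  have hkk : k₀ ≤ k := by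
    by_contra hc
    have h1 : ∀ v, J k v = ∅ := by
      intro v
      rw [Set.eq_empty_iff_forall_notMem]
      rintro τ ⟨_, h2⟩
      obtain ⟨i, hi, _⟩ := mem_iUnion₂.1 h2
      exact hc (hIk k i hi)
    have h2 : Ak = ∅ := by
      rw [Set.eq_empty_iff_forall_notMem]
      rintro v ⟨_, h3⟩
      rw [h1, measure_empty] at h3
      have : 0 < ENNReal.ofReal (lam * w k) := ENNReal.ofReal_pos.2 (mul_pos hlam (hw0 k))
      exact absurd h3 (not_le.2 this)
    unfold Big at hk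
    rw [h2] at hk
    have h3 : {r : ℝ | r ∈ Icc ρ₀ ρ₁ ∧ ENNReal.ofReal (η * w k) ≤
        sg d {ω | r • (ω : E d) ∈ (∅ : Set (E d))}} = ∅ := by
      rw [Set.eq_empty_iff_forall_notMem]
      rintro r ⟨_, h4⟩
      have h5 : {ω : sphere (0 : E d) 1 | r • (ω : E d) ∈ (∅ : Set (E d))} = ∅ := by
        ext; simp
      rw [h5, measure_empty] at h4
      have : 0 < ENNReal.ofReal (η * w k) := ENNReal.ofReal_pos.2 (mul_pos hη (hw0 k))
      exact absurd h4 (not_le.2 this)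
    rw [h3, measure_empty] at hk
    have : 0 < ENNReal.ofReal (η * w k) := ENNReal.ofReal_pos.2 (mul_pos hη (hw0 k))
    exact absurd hk (not_le.2 this)
  obtain ⟨hkA, hkB, hk1⟩ := hk₀ k hkk
  set δ : ℝ := (1 / 2 : ℝ) ^ k with hδ
  have hδ0 : 0 < δ := by positivity
  have hδ2 : δ ≤ 1 / 2 := by
    calc δ ≤ (1 / 2 : ℝ) ^ 1 := pow_le_pow_of_le_one (by norm_num) (by norm_num) hk1
      _ = 1 / 2 := pow_one _
  have hlower := hmass (η * w k) δ (lam * w k) Ak a (J k) (mul_pos hη (hw0 k))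
    (mul_pos hlam (hw0 k)) hδ0 hδ2 hkB hk (fun v hv v' hv' => hach v hv.1 v' hv'.1)
    (fun v _ => hJm k v) (fun v _ => inter_subset_left) (fun v hv => hv.2)
  -- upper bound
  set Bl : ℕ → Set (E d × ℝ) := fun i =>
    if h : i ∈ I k ∧ (t i).Nonempty then ball h.2.some (2 * δ) else ∅ with hBl
  have hsub : (⋃ v ∈ Ak, tube δ (a v) v (J k v)) ⊆ ⋃ i, Bl i := by
    intro p hp
    obtain ⟨v, hv, ⟨_, h1⟩, h2⟩ := mem_iUnion₂.1 hp
    obtain ⟨i, hi, h3⟩ := mem_iUnion₂.1 h1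
    have hne : (t i).Nonempty := closure_nonempty_iff.1 ⟨_, h3⟩
    refine mem_iUnion.2 ⟨i, ?_⟩
    have hcond : i ∈ I k ∧ (t i).Nonempty := ⟨hi, hne⟩
    simp only [hBl, dif_pos hcond]
    set y := hcond.2.some with hy
    have hyt : y ∈ t i := hcond.2.some_mem
    have h4 : dist (a v + p.2 • v, p.2) y ≤ r i := by
      have hcl : IsClosed {q : E d × ℝ | dist q y ≤ r i} :=
        isClosed_le (by fun_prop) continuous_const
      exact (closure_minimal (fun q hq => hrt i q hq y hyt) hcl) h3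
    have h5 : dist p (a v + p.2 • v, p.2) < δ := by
      rw [Prod.dist_eq]
      simp only [dist_self]
      rw [dist_eq_norm]
      exact max_lt h2 hδ0
    rw [mem_ball]
    calc dist p y ≤ dist p (a v + p.2 • v, p.2) + dist (a v + p.2 • v, p.2) y :=
          dist_triangle _ _ _
      _ < δ + r i := by linarith
      _ ≤ δ + δ := by linarith [hi.2]
      _ = 2 * δ := by ring
  have hBlv : ∀ i, volume (Bl i) ≤ ENNReal.ofReal (b * 2 ^ (d + 2) * 2 ^ s *
      δ ^ ((d : ℝ) + 1 - s)) * ENNReal.ofReal (r i ^ s) := by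
    intro i
    by_cases hcond : i ∈ I k ∧ (t i).Nonempty
    · simp only [hBl, dif_pos hcond]
      rw [vol_ball2 hδ0, ← ENNReal.ofReal_mul (by positivity)]
      apply ENNReal.ofReal_le_ofReal
      have h1 : δ ≤ 2 * r i := by
        have h2 := hcond.1.1
        rw [pow_succ] at h2
        linarith
      have h2 : δ ^ s ≤ 2 ^ s * r i ^ s := by
        rw [← Real.mul_rpow (by norm_num) (hr0 i).le]
        exact Real.rpow_le_rpow hδ0.le h1 hs0.le
      have h3 : δ ^ (d + 1) = δ ^ ((d : ℝ) + 1 - s) * δ ^ s := by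
        rw [← Real.rpow_add hδ0, ← Real.rpow_natCast]
        congr 1
        push_cast
        ring
      rw [← hb, h3]
      calc b * 2 ^ (d + 2) * (δ ^ ((d : ℝ) + 1 - s) * δ ^ s)
          ≤ b * 2 ^ (d + 2) * (δ ^ ((d : ℝ) + 1 - s) * (2 ^ s * r i ^ s)) := by gcongr
        _ = _ := by ring
    · simp only [hBl, dif_neg hcond, measure_empty]
      exact zero_le
  have hupper : volume (⋃ v ∈ Ak, tube δ (a v) v (J k v)) ≤
      ENNReal.ofReal (b * 2 ^ (d + 2) * 2 ^ s * δ ^ ((d : ℝ) + 1 - s)) := by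
    refine (measure_mono hsub).trans ((measure_iUnion_le _).trans ?_)
    refine (ENNReal.tsum_le_tsum hBlv).trans ?_
    rw [ENNReal.tsum_mul_left]
    calc _ ≤ ENNReal.ofReal (b * 2 ^ (d + 2) * 2 ^ s * δ ^ ((d : ℝ) + 1 - s)) * 1 := by gcongr
      _ = _ := mul_one _
  have hfin := hlower.trans hupper
  rw [ENNReal.ofReal_le_ofReal_iff (by positivity)] at hfin
  have hlog : Real.log (1 / δ) = k * Real.log 2 := by
    rw [hδ, one_div, ← inv_pow, Real.log_pow]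
    norm_num
  have hk1' : (1 : ℝ) ≤ k := by exact_mod_cast hk1
  have hl2 : 0 < Real.log 2 := Real.log_pos (by norm_num)
  have hδθ : δ ^ ((d : ℝ) + 1 - s) = θ ^ k := by
    rw [hδ, hθ, ← Real.rpow_natCast, ← Real.rpow_natCast, ← Real.rpow_mul (by norm_num),
      ← Real.rpow_mul (by norm_num), mul_comm]
  rw [hlog, div_le_iff₀ (by positivity), hδθ] at hfin
  have e1 : c * (η * w k * (lam * w k)) ^ 2 = c * (η * lam * c₀ ^ 2) ^ 2 / ((k : ℝ) + 1) ^ 8 := by
    simp only [hwdef]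
    field_simp
  rw [e1, div_le_iff₀ (by positivity)] at hfin
  have h9 : b * 2 ^ (d + 2) * 2 ^ s * θ ^ k * (k * Real.log 2) * ((k : ℝ) + 1) ^ 8 ≤
      C * (((k : ℝ) + 1) ^ 9 * θ ^ k) := by
    have e2 : b * 2 ^ (d + 2) * 2 ^ s * θ ^ k * (k * Real.log 2) * ((k : ℝ) + 1) ^ 8 =
        C * (k * ((k : ℝ) + 1) ^ 8 * θ ^ k) := by rw [hC]; ring
    have e3 : C * (((k : ℝ) + 1) ^ 9 * θ ^ k) = C * (((k : ℝ) + 1) * ((k : ℝ) + 1) ^ 8 * θ ^ k) := by
      ring
    rw [e2, e3]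
    have hC0 : 0 ≤ C := by rw [hC]; positivity
    gcongr
    linarith
  exact absurd (hfin.trans h9) (not_le.2 hkA)

/-- **Hausdorff dimension, slope coordinates.** -/
theorem haus {d : ℕ} {ρ₀ ρ₁ T η : ℝ} (hρ : 0 < ρ₀) (hρ1 : 0 ≤ ρ₁) (hT : 0 < T)
    (hη : 0 < η) (A : Set (E d)) (a : E d → E d) (K : Set (E d × ℝ))
    (hBig : Big ρ₀ ρ₁ η A)
    (hach : ∀ v ∈ A, ∀ v' ∈ A, ‖v‖ = ‖v'‖ → Achr T (a v) v (a v') v')
    (hK : ∀ v ∈ A, 0 < volume {t : ℝ | t ∈ Icc (T / 4) (T / 2) ∧ (a v + t • v, t) ∈ K}) :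
    ((d + 1 : ℕ) : ℝ≥0∞) ≤ dimH K := by
  have hcov : A ⊆ ⋃ n : ℕ, {v | v ∈ A ∧ ENNReal.ofReal (1 / ((n : ℝ) + 1)) ≤
      volume {t : ℝ | t ∈ Icc (T / 4) (T / 2) ∧ (a v + t • v, t) ∈ K}} := by
    intro v hv
    obtain ⟨n, hn⟩ := ENNReal.exists_inv_nat_lt (hK v hv).ne'
    refine mem_iUnion.2 ⟨n, hv, le_trans ?_ hn.le⟩
    rw [one_div, ENNReal.ofReal_inv_of_pos (by positivity)]
    apply ENNReal.inv_le_inv.2
    rw [← ENNReal.ofReal_natCast]
    apply ENNReal.ofReal_le_ofReal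
    linarith
  obtain ⟨n, η', hη', hB⟩ := hBig.exists_of_countable hη _ hcov
  exact haus_aux hρ hρ1 hT hη' (by positivity : (0:ℝ) < 1 / ((n : ℝ) + 1)) _ a K hB
    (fun v hv v' hv' => hach v hv.1 v' hv'.1) (fun v hv => hv.2)

end Run7.h523.WF
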