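import Pool.Agent.Run7.h523.WF.CoreEst

set_option autoImplicit false

/-!
# Large sets of slopes and separated families in them
-/

open MeasureTheory Set Metric
open scoped ENNReal Pointwise

namespace Run7.h523.WF

/-- Surface measure on the unit sphere of `ℝ^d`. -/
noncomputable def sg (d : ℕ) : Measure (sphere (0 : E d) 1) := (volume : Measure (E d)).toSphere

/-- Many levels in `[ρ₀, ρ₁]` contain many slopes of `A`. -/
def Big {d : ℕ} (ρ₀ ρ₁ η : ℝ) (A : Set (E d)) : Prop :=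
  ENNReal.ofReal η ≤ volume {r : ℝ | r ∈ Icc ρ₀ ρ₁ ∧
    ENNReal.ofReal η ≤ sg d {ω | r • (ω : E d) ∈ A}}

/-- The constant in the estimate for caps. -/
noncomputable def capC (d : ℕ) : ℝ := d * (2 ^ (d + 1) * (volume (ball (0 : E d) 1)).toReal)

theorem capC_nonneg (d : ℕ) : 0 ≤ capC d := by unfold capC; positivity

theorem cap {d : ℕ} {s : ℝ} (hs : 0 < s) (hs1 : s ≤ 1) (ω₀ : sphere (0 : E d) 1) :
    sg d {ω | ‖(ω : E d) - ω₀‖ < s} ≤ ENNReal.ofReal (capC d * s ^ (d - 1)) := by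
  have hd : 1 ≤ d := by
    rcases Nat.eq_zero_or_pos d with h | h
    · subst h
      have h1 := ω₀.2
      rw [mem_sphere_zero_iff_norm] at h1
      have h2 : (ω₀ : E 0) = 0 := Subsingleton.elim _ _
      rw [h2, norm_zero] at h1
      norm_num at h1
    · exact h
  have hm : MeasurableSet {ω : sphere (0 : E d) 1 | ‖(ω : E d) - ω₀‖ < s} :=
    (isOpen_lt (by fun_prop) continuous_const).measurableSet
  rw [sg, Measure.toSphere_apply' _ hm]
  set k := ⌊1 / s⌋₊ with hk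
  have hsub : Ioo (0 : ℝ) 1 • (Subtype.val '' {ω : sphere (0 : E d) 1 | ‖(ω : E d) - ω₀‖ < s}) ⊆
      ⋃ i ∈ Finset.range (k + 1), closedBall (((i : ℝ) * s) • (ω₀ : E d)) (2 * s) := by
    rintro _ ⟨ρ, hρ, _, ⟨ω, hω, rfl⟩, rfl⟩
    have hρ0 : 0 ≤ ρ / s := div_nonneg hρ.1.le hs.le
    refine mem_iUnion₂.2 ⟨⌊ρ / s⌋₊, ?_, ?_⟩
    · rw [Finset.mem_range, Nat.lt_succ_iff]
      apply Nat.floor_le_floor
      gcongr
      exact hρ.2.le
    · rw [mem_closedBall, dist_eq_norm]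
      have h1 := Nat.floor_le hρ0
      have h2 := Nat.lt_floor_add_one (ρ / s)
      rw [le_div_iff₀ hs] at h1
      rw [div_lt_iff₀ hs] at h2
      have e : ρ • (ω : E d) - ((⌊ρ / s⌋₊ : ℝ) * s) • (ω₀ : E d) =
          ρ • ((ω : E d) - ω₀) + (ρ - (⌊ρ / s⌋₊ : ℝ) * s) • (ω₀ : E d) := by module
      simp only
      rw [e]
      refine (norm_add_le _ _).trans ?_
      rw [norm_smul, norm_smul, Real.norm_eq_abs, Real.norm_eq_abs, abs_of_pos hρ.1,
        abs_of_nonneg (by linarith), mem_sphere_zero_iff_norm.1 ω₀.2]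
      have h3 : ‖(ω : E d) - ω₀‖ < s := hω
      have h4 : ρ * ‖(ω : E d) - ω₀‖ ≤ 1 * s := by
        have := hρ.2
        have := norm_nonneg ((ω : E d) - ω₀)
        gcongr
      nlinarith
  have h1 : volume (Ioo (0 : ℝ) 1 • (Subtype.val '' {ω : sphere (0 : E d) 1 | ‖(ω : E d) - ω₀‖ < s})) ≤
      ENNReal.ofReal (2 ^ (d + 1) * (volume (ball (0 : E d) 1)).toReal * s ^ (d - 1)) := by
    refine (measure_mono hsub).trans ((measure_biUnion_finset_le _ _).trans ?_)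
    have h2 : ∀ i ∈ Finset.range (k + 1),
        volume (closedBall (((i : ℝ) * s) • (ω₀ : E d)) (2 * s)) ≤
        ENNReal.ofReal ((2 * s) ^ d * (volume (ball (0 : E d) 1)).toReal) := by
      intro i _
      rw [Measure.addHaar_closedBall _ _ (by positivity), finrank_euclideanSpace_fin,
        ENNReal.ofReal_mul (by positivity), ENNReal.ofReal_toReal measure_ball_lt_top.ne]
    refine (Finset.sum_le_card_nsmul _ _ _ h2).trans ?_
    rw [Finset.card_range, nsmul_eq_mul, ← ENNReal.ofReal_natCast, ← ENNReal.ofReal_mul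
      (by positivity)]
    apply ENNReal.ofReal_le_ofReal
    have h3 : ((k + 1 : ℕ) : ℝ) ≤ 2 / s := by
      have h4 := Nat.floor_le (div_nonneg zero_le_one hs.le : (0:ℝ) ≤ 1 / s)
      have h5 : 1 ≤ 1 / s := by rw [le_div_iff₀ hs]; linarith
      push_cast
      have h6 : 2 / s = 1 / s + 1 / s := by ring
      rw [h6]
      linarith
    have h7 : (0:ℝ) ≤ (volume (ball (0 : E d) 1)).toReal := ENNReal.toReal_nonneg
    calc ((k + 1 : ℕ) : ℝ) * ((2 * s) ^ d * (volume (ball (0 : E d) 1)).toReal)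
        ≤ (2 / s) * ((2 * s) ^ d * (volume (ball (0 : E d) 1)).toReal) := by gcongr
      _ = 2 ^ (d + 1) * (volume (ball (0 : E d) 1)).toReal * s ^ (d - 1) := by
        obtain ⟨e, rfl⟩ : ∃ e, d = e + 1 := ⟨d - 1, by omega⟩
        rw [Nat.add_sub_cancel]
        field_simp
        ring
  rw [finrank_euclideanSpace_fin]
  calc (d : ℝ≥0∞) * volume (Ioo (0 : ℝ) 1 • (Subtype.val '' {ω : sphere (0 : E d) 1 |
        ‖(ω : E d) - ω₀‖ < s}))
      ≤ ENNReal.ofReal d * ENNReal.ofReal (2 ^ (d + 1) * (volume (ball (0 : E d) 1)).toReal *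
        s ^ (d - 1)) := by
        rw [ENNReal.ofReal_natCast]
        gcongr
    _ = ENNReal.ofReal (capC d * s ^ (d - 1)) := by
        rw [← ENNReal.ofReal_mul (by positivity)]
        congr 1
        unfold capC
        ring

/-- Greedy selection of a separated family. -/
theorem greedy {X : Type*} [MeasurableSpace X] (μ : Measure X) (near : X → Set X)
    (hrefl : ∀ x, x ∈ near x) (hsymm : ∀ x y, x ∈ near y → y ∈ near x)
    (A : Set X) (m : ℝ≥0∞) (hm : ∀ x ∈ A, μ (near x) ≤ m) (N : ℕ)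
    (hN : (N : ℝ≥0∞) * m < μ A) :
    ∃ F : Finset X, ↑F ⊆ A ∧ F.card = N + 1 ∧ ∀ x ∈ F, ∀ y ∈ F, x ≠ y → x ∉ near y := by
  classical
  have key : ∀ k : ℕ, k ≤ N + 1 → ∃ F : Finset X, ↑F ⊆ A ∧ F.card = k ∧
      ∀ x ∈ F, ∀ y ∈ F, x ≠ y → x ∉ near y := by
    intro k
    induction k with
    | zero => intro _; exact ⟨∅, by simp, rfl, by simp⟩
    | succ k ih =>
      intro hk
      obtain ⟨F, hF1, hF2, hF3⟩ := ih (by omega)
      have h1 : μ (⋃ x ∈ F, near x) < μ A := by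
        refine lt_of_le_of_lt ?_ hN
        refine (measure_biUnion_finset_le _ _).trans ?_
        refine (Finset.sum_le_card_nsmul _ _ m fun x hx => hm x (hF1 hx)).trans ?_
        rw [nsmul_eq_mul, hF2]
        gcongr
        exact_mod_cast (by omega : k ≤ N)
      obtain ⟨z, hzA, hz⟩ : ∃ z ∈ A, z ∉ ⋃ x ∈ F, near x := by
        by_contra hcon
        push Not at hcon
        exact absurd (measure_mono (μ := μ) hcon) (not_le.2 h1)
      have hz' : ∀ x ∈ F, z ∉ near x := fun x hx h => hz (mem_iUnion₂.2 ⟨x, hx, h⟩)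
      have hzF : z ∉ F := fun h => hz' z h (hrefl z)
      refine ⟨insert z F, ?_, ?_, ?_⟩
      · rw [Finset.coe_insert]
        exact insert_subset hzA hF1
      · rw [Finset.card_insert_of_notMem hzF, hF2]
      · intro x hx y hy hne
        rcases Finset.mem_insert.1 hx with hxz | hxF
        · rcases Finset.mem_insert.1 hy with hyz | hyF
          · exact absurd (hxz.trans hyz.symm) hne
          · rw [hxz]; exact hz' y hyF
        · rcases Finset.mem_insert.1 hy with hyz | hyF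
          · rw [hyz]; exact fun h => hz' x hxF (hsymm _ _ h)
          · exact hF3 x hxF y hyF hne
  exact key (N + 1) le_rfl

/-- A large set of slopes contains a large separated family. -/
theorem net {d : ℕ} {ρ₀ ρ₁ T : ℝ} (hρ : 0 < ρ₀) (hT : 0 < T) :
    ∃ c > 0, ∀ (η δ : ℝ) (A : Set (E d)), 0 < η → 0 < δ → 8 * δ / T ≤ ρ₀ → Big ρ₀ ρ₁ η A →
      ∃ V : Finset (E d), ↑V ⊆ A ∧ (∀ v ∈ V, ρ₀ ≤ ‖v‖ ∧ ‖v‖ ≤ ρ₁) ∧
        (∀ v ∈ V, ∀ v' ∈ V, ‖v‖ = ‖v'‖ ∨ δ ≤ |‖v‖ - ‖v'‖|) ∧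
        (∀ v ∈ V, ∀ v' ∈ V, ‖v‖ = ‖v'‖ → v ≠ v' → 8 * δ / T ≤ ‖v - v'‖) ∧
        c * η ^ 2 ≤ V.card * δ ^ d := by
  classical
  set C₁ : ℝ := capC d * (8 / (T * ρ₀)) ^ (d - 1) + 1 with hC₁
  have hC₁0 : 0 < C₁ := by
    have := capC_nonneg d
    positivity
  refine ⟨1 / (8 * C₁), by positivity, ?_⟩
  intro η δ A hη hδ hδT hBig
  set R₀ : Set ℝ := {r : ℝ | r ∈ Icc ρ₀ ρ₁ ∧ ENNReal.ofReal η ≤ sg d {ω | r • (ω : E d) ∈ A}}
    with hR₀
  have hη' : (0 : ℝ≥0∞) < ENNReal.ofReal η := ENNReal.ofReal_pos.2 hη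
  have hd : 1 ≤ d := by
    rcases Nat.eq_zero_or_pos d with h | h
    · exfalso
      subst h
      have h1 : R₀ = ∅ := by
        rw [Set.eq_empty_iff_forall_notMem]
        rintro r ⟨_, h2⟩
        have h3 : sg 0 {ω | r • (ω : E 0) ∈ A} = 0 := by
          rw [sg, (Measure.toSphere_eq_zero_iff_finrank _).2 (by simp)]
          simp
        rw [h3] at h2
        exact absurd h2 (not_le.2 hη')
      unfold Big at hBig
      rw [← hR₀, h1, measure_empty] at hBig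
      exact absurd hBig (not_le.2 hη')
    · exact h
  -- levels
  set N₁ : ℕ := ⌈η / (4 * δ)⌉₊ - 1 with hN₁
  have hx1 : 0 < η / (4 * δ) := by positivity
  have hce1 : 1 ≤ ⌈η / (4 * δ)⌉₊ := Nat.one_le_ceil_iff.2 hx1
  have hN₁' : ((N₁ + 1 : ℕ) : ℝ) = (⌈η / (4 * δ)⌉₊ : ℝ) := by rw [hN₁]; congr 1; omega
  have hN₁a : η / (4 * δ) ≤ ((N₁ + 1 : ℕ) : ℝ) := by rw [hN₁']; exact Nat.le_ceil _
  have hN₁b : (N₁ : ℝ) < η / (4 * δ) := by
    have h1 := Nat.ceil_lt_add_one hx1.le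
    rw [← hN₁'] at h1
    push_cast at h1
    linarith
  obtain ⟨R, hRsub, hRcard, hRsep⟩ := greedy (volume : Measure ℝ) (fun r => ball r δ)
    (fun x => mem_ball_self hδ) (fun x y h => mem_ball_comm.1 h) R₀ (ENNReal.ofReal (2 * δ))
    (fun x _ => by rw [Real.volume_ball]) N₁ (by
      refine lt_of_lt_of_le ?_ hBig
      rw [← ENNReal.ofReal_natCast, ← ENNReal.ofReal_mul (by positivity)]
      apply (ENNReal.ofReal_lt_ofReal_iff hη).2
      rw [lt_div_iff₀ (by positivity)] at hN₁b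
      nlinarith)
  -- slopes in a level
  set s : ℝ := 8 * δ / T / ρ₀ with hs
  have hs0 : 0 < s := by positivity
  have hs1 : s ≤ 1 := by rw [hs, div_le_one hρ]; exact hδT
  set m : ℝ := C₁ * δ ^ (d - 1) with hm
  have hm0 : 0 < m := by positivity
  have hcap : ∀ ω₀ : sphere (0 : E d) 1, sg d {ω | ‖(ω : E d) - ω₀‖ < s} ≤ ENNReal.ofReal m := by
    intro ω₀
    refine (cap hs0 hs1 ω₀).trans (ENNReal.ofReal_le_ofReal ?_)
    have e : s ^ (d - 1) = (8 / (T * ρ₀)) ^ (d - 1) * δ ^ (d - 1) := by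
      rw [← mul_pow, hs]
      congr 1
      field_simp
    rw [e, hm, ← mul_assoc]
    have : 0 < δ ^ (d - 1) := by positivity
    nlinarith
  set N₂ : ℕ := ⌈η / (2 * m)⌉₊ - 1 with hN₂
  have hx2 : 0 < η / (2 * m) := by positivity
  have hce2 : 1 ≤ ⌈η / (2 * m)⌉₊ := Nat.one_le_ceil_iff.2 hx2
  have hN₂' : ((N₂ + 1 : ℕ) : ℝ) = (⌈η / (2 * m)⌉₊ : ℝ) := by rw [hN₂]; congr 1; omega
  have hN₂a : η / (2 * m) ≤ ((N₂ + 1 : ℕ) : ℝ) := by rw [hN₂']; exact Nat.le_ceil _
  have hN₂b : (N₂ : ℝ) < η / (2 * m) := by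
    have h1 := Nat.ceil_lt_add_one hx2.le
    rw [← hN₂'] at h1
    push_cast at h1
    linarith
  have hleaf : ∀ r : ℝ, ∃ F : Finset (sphere (0 : E d) 1), r ∈ R →
      (∀ ω ∈ F, r • (ω : E d) ∈ A) ∧ F.card = N₂ + 1 ∧
      ∀ ω ∈ F, ∀ ω' ∈ F, ω ≠ ω' → s ≤ ‖(ω : E d) - ω'‖ := by
    intro r
    by_cases hr : r ∈ R
    · obtain ⟨F, h1, h2, h3⟩ := greedy (sg d) (fun ω₀ => {ω | ‖(ω : E d) - ω₀‖ < s})
        (fun x => by simpa using hs0) (fun x y h => by
          rw [Set.mem_ofPred_eq] at h ⊢; rwa [norm_sub_rev]) {ω | r • (ω : E d) ∈ A}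
        (ENNReal.ofReal m) (fun x _ => hcap x) N₂ (by
          refine lt_of_lt_of_le ?_ (hRsub hr).2
          rw [← ENNReal.ofReal_natCast, ← ENNReal.ofReal_mul (by positivity)]
          apply (ENNReal.ofReal_lt_ofReal_iff hη).2
          rw [lt_div_iff₀ (by positivity)] at hN₂b
          nlinarith)
      exact ⟨F, fun _ => ⟨fun ω hω => h1 hω, h2, fun ω hω ω' hω' hne => by
        have := h3 ω hω ω' hω' hne
        simpa using this⟩⟩
    · exact ⟨∅, fun h => absurd h hr⟩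
  choose F hF using hleaf
  set V : Finset (E d) := R.biUnion fun r => (F r).image fun (ω : sphere (0 : E d) 1) => r • (ω : E d) with hV
  have hmem : ∀ v ∈ V, ∃ r ∈ R, ∃ ω ∈ F r, v = r • (ω : E d) ∧ ‖v‖ = r := by
    intro v hv
    obtain ⟨r, hr, h1⟩ := Finset.mem_biUnion.1 hv
    obtain ⟨ω, hω, rfl⟩ := Finset.mem_image.1 h1
    refine ⟨r, hr, ω, hω, rfl, ?_⟩
    have hr0 : 0 < r := hρ.trans_le (hRsub hr).1.1
    rw [norm_smul, Real.norm_eq_abs, abs_of_pos hr0, mem_sphere_zero_iff_norm.1 ω.2, mul_one]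
  refine ⟨V, ?_, ?_, ?_, ?_, ?_⟩
  · intro v hv
    obtain ⟨r, hr, ω, hω, rfl, _⟩ := hmem v hv
    exact (hF r hr).1 ω hω
  · intro v hv
    obtain ⟨r, hr, _, _, _, h1⟩ := hmem v hv
    rw [h1]
    exact (hRsub hr).1
  · intro v hv v' hv'
    obtain ⟨r, hr, _, _, _, h1⟩ := hmem v hv
    obtain ⟨r', hr', _, _, _, h2⟩ := hmem v' hv'
    rw [h1, h2]
    by_cases h : r = r'
    · exact Or.inl h
    · right
      have := hRsep r hr r' hr' h
      rw [mem_ball, Real.dist_eq, not_lt] at this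
      exact this
  · intro v hv v' hv' hn hne
    obtain ⟨r, hr, ω, hω, e1, h1⟩ := hmem v hv
    obtain ⟨r', hr', ω', hω', e2, h2⟩ := hmem v' hv'
    have hrr : r = r' := by rw [← h1, ← h2, hn]
    subst hrr
    have hr0 : ρ₀ ≤ r := (hRsub hr).1.1
    have hne' : ω ≠ ω' := by
      rintro rfl
      exact hne (e1.trans e2.symm)
    have h3 := (hF r hr).2.2 ω hω ω' hω' hne'
    rw [e1, e2, ← smul_sub, norm_smul, Real.norm_eq_abs, abs_of_pos (hρ.trans_le hr0)]
    have h4 : 8 * δ / T = ρ₀ * s := by rw [hs]; field_simp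
    rw [h4]
    have := hρ.le.trans hr0
    gcongr
  · have hcard : V.card = (N₁ + 1) * (N₂ + 1) := by
      rw [hV, Finset.card_biUnion]
      · have : ∀ r ∈ R, ((F r).image fun (ω : sphere (0 : E d) 1) => r • (ω : E d)).card = N₂ + 1 := by
          intro r hr
          have hr0 : r ≠ 0 := (hρ.trans_le (hRsub hr).1.1).ne'
          rw [Finset.card_image_of_injective, (hF r hr).2.1]
          intro ω ω' h
          exact Subtype.ext (smul_right_injective _ hr0 h)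
        rw [Finset.sum_congr rfl this, Finset.sum_const, hRcard, smul_eq_mul]
      · intro r hr r' hr' hne
        rw [Function.onFun, Finset.disjoint_left]
        intro v hv hv'
        obtain ⟨ω, hω, rfl⟩ := Finset.mem_image.1 hv
        obtain ⟨ω', hω', h1⟩ := Finset.mem_image.1 hv'
        apply hne
        have h2 := congrArg norm h1
        rw [norm_smul, norm_smul, Real.norm_eq_abs, Real.norm_eq_abs,
          abs_of_pos (hρ.trans_le (hRsub hr).1.1), abs_of_pos (hρ.trans_le (hRsub hr').1.1),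
          mem_sphere_zero_iff_norm.1 ω.2, mem_sphere_zero_iff_norm.1 ω'.2] at h2
        linarith
    rw [hcard]
    have h1 : η / (4 * δ) * (η / (2 * m)) ≤ (((N₁ + 1) * (N₂ + 1) : ℕ) : ℝ) := by
      rw [Nat.cast_mul]
      gcongr
    have h2 : 1 / (8 * C₁) * η ^ 2 = η / (4 * δ) * (η / (2 * m)) * δ ^ d := by
      rw [hm]
      obtain ⟨e, rfl⟩ : ∃ e, d = e + 1 := ⟨d - 1, by omega⟩
      rw [Nat.add_sub_cancel]
      field_simp
      ring
    rw [h2]
    gcongr

end Run7.h523.WF
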