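import Mathlib

set_option autoImplicit false

/-!
# The `L²` argument for unions of sets
-/

open MeasureTheory Set Metric
open scoped ENNReal

namespace Run7.h523.WF

theorem cs_sq {X : Type*} [MeasurableSpace X] (μ : Measure X) {f g : X → ℝ≥0∞}
    (hf : AEMeasurable f μ) (hg : AEMeasurable g μ) :
    (∫⁻ x, f x * g x ∂μ) ^ 2 ≤ (∫⁻ x, f x ^ 2 ∂μ) * ∫⁻ x, g x ^ 2 ∂μ := by
  have h := ENNReal.lintegral_mul_le_Lp_mul_Lq μ (Real.HolderConjugate.two_two) hf hg
  have h2 : (∫⁻ x, f x * g x ∂μ) ≤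
      (∫⁻ x, f x ^ 2 ∂μ) ^ (1 / (2:ℝ)) * (∫⁻ x, g x ^ 2 ∂μ) ^ (1 / (2:ℝ)) := by
    simpa [ENNReal.rpow_two] using h
  calc (∫⁻ x, f x * g x ∂μ) ^ 2
      ≤ ((∫⁻ x, f x ^ 2 ∂μ) ^ (1 / (2:ℝ)) * (∫⁻ x, g x ^ 2 ∂μ) ^ (1 / (2:ℝ))) ^ 2 := by gcongr
    _ = _ := by
      rw [mul_pow, ← ENNReal.rpow_natCast, ← ENNReal.rpow_natCast, ← ENNReal.rpow_mul,
        ← ENNReal.rpow_mul]
      norm_num

theorem cordoba {X : Type*} [MeasurableSpace X] (μ : Measure X) {ι : Type*} (s : Finset ι)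
    (A : ι → Set X) (hA : ∀ i ∈ s, MeasurableSet (A i)) :
    (∑ i ∈ s, μ (A i)) ^ 2 ≤ (∑ i ∈ s, ∑ j ∈ s, μ (A i ∩ A j)) * μ (⋃ i ∈ s, A i) := by
  classical
  set U := ⋃ i ∈ s, A i with hU
  have hUm : MeasurableSet U := Finset.measurableSet_biUnion s hA
  set f : X → ℝ≥0∞ := fun x => ∑ i ∈ s, (A i).indicator 1 x with hf
  have hfm : Measurable f := Finset.measurable_sum s fun i hi => measurable_one.indicator (hA i hi)
  set g : X → ℝ≥0∞ := U.indicator 1 with hg
  have hgm : Measurable g := measurable_one.indicator hUm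
  have h1 : ∑ i ∈ s, μ (A i) = ∫⁻ x, f x * g x ∂μ := by
    have : ∀ x, f x * g x = f x := by
      intro x
      by_cases hx : x ∈ U
      · simp [hg, hx]
      · have : f x = 0 := by
          rw [hf]
          refine Finset.sum_eq_zero fun i hi => ?_
          rw [indicator_of_notMem]
          intro hxi
          exact hx (mem_iUnion₂.2 ⟨i, hi, hxi⟩)
        simp [this]
    simp_rw [this, hf]
    rw [lintegral_finsetSum' s fun i hi => (measurable_one.indicator (hA i hi)).aemeasurable]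
    refine Finset.sum_congr rfl fun i hi => ?_
    rw [lintegral_indicator_one (hA i hi)]
  have h2 : ∫⁻ x, f x ^ 2 ∂μ = ∑ i ∈ s, ∑ j ∈ s, μ (A i ∩ A j) := by
    have : ∀ x, f x ^ 2 = ∑ i ∈ s, ∑ j ∈ s, (A i ∩ A j).indicator 1 x := by
      intro x
      rw [pow_two, hf, Finset.sum_mul_sum]
      refine Finset.sum_congr rfl fun i _ => Finset.sum_congr rfl fun j _ => ?_
      rw [inter_indicator_one]
      rfl
    simp_rw [this]
    rw [lintegral_finsetSum' s fun i hi => (Finset.measurable_sum s fun j hj =>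
      measurable_one.indicator ((hA i hi).inter (hA j hj))).aemeasurable]
    refine Finset.sum_congr rfl fun i hi => ?_
    rw [lintegral_finsetSum' s fun j hj =>
      (measurable_one.indicator ((hA i hi).inter (hA j hj))).aemeasurable]
    refine Finset.sum_congr rfl fun j hj => ?_
    rw [lintegral_indicator_one ((hA i hi).inter (hA j hj))]
  have h3 : ∫⁻ x, g x ^ 2 ∂μ = μ U := by
    have : ∀ x, g x ^ 2 = U.indicator 1 x := by
      intro x
      by_cases hx : x ∈ U <;> simp [hg, hx]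
    simp_rw [this]
    rw [lintegral_indicator_one hUm]
  rw [h1]
  refine (cs_sq μ hfm.aemeasurable hgm.aemeasurable).trans ?_
  rw [h2, h3]

end Run7.h523.WF
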