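import Mathlib

set_option autoImplicit false

/-!
# Wave fronts: separation inside a leaf and transversality of two leaves
-/

open MeasureTheory Set Metric
open scoped ENNReal

namespace Run7.h523.WF

variable {F : Type*} [NormedAddCommGroup F] [InnerProductSpace ℝ F]

/-- The two segments `a + s v`, `a' + s v'`, `0 ≤ s ≤ T`, are mutually achronal for the cone of
speed `‖v‖`. -/
def Achr (T : ℝ) (a v a' v' : F) : Prop :=
  ∀ s ∈ Icc (0 : ℝ) T, ∀ s' ∈ Icc (0 : ℝ) T, ‖v‖ * |s - s'| ≤ ‖(a + s • v) - (a' + s' • v')‖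

/-- Separation inside a leaf. -/
theorem leaf_sep {T : ℝ} (hT : 0 < T) {a v a' v' : F} (hv : ‖v‖ = ‖v'‖) (h : Achr T a v a' v')
    {s : ℝ} (hs0 : 0 ≤ s) (hs : s ≤ T / 2) :
    s * ‖v - v'‖ ≤ ‖(a + s • v) - (a' + s • v')‖ := by
  have h1 := h T ⟨hT.le, le_rfl⟩ 0 ⟨le_rfl, hT.le⟩
  have h2 := h 0 ⟨le_rfl, hT.le⟩ T ⟨hT.le, le_rfl⟩
  set D := a - a' with hD
  have e1 : (a + T • v) - (a' + (0:ℝ) • v') = D + T • v := by rw [hD]; module
  have e2 : (a + (0:ℝ) • v) - (a' + T • v') = D - T • v' := by rw [hD]; module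
  have e3 : (a + s • v) - (a' + s • v') = D + s • (v - v') := by rw [hD]; module
  rw [e1, sub_zero, abs_of_pos hT] at h1
  rw [e2, zero_sub, abs_neg, abs_of_pos hT] at h2
  rw [e3]
  have q1 : (‖v‖ * T) ^ 2 ≤ ‖D + T • v‖ ^ 2 := pow_le_pow_left₀ (by positivity) h1 2
  have q2 : (‖v‖ * T) ^ 2 ≤ ‖D - T • v'‖ ^ 2 := pow_le_pow_left₀ (by positivity) h2 2
  rw [norm_add_sq_real, inner_smul_right, norm_smul, Real.norm_eq_abs, abs_of_pos hT] at q1
  rw [norm_sub_sq_real, inner_smul_right, norm_smul, Real.norm_eq_abs, abs_of_pos hT, ← hv] at q2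
  have q3 : (s * ‖v - v'‖) ^ 2 ≤ ‖D + s • (v - v')‖ ^ 2 := by
    rw [norm_add_sq_real, inner_smul_right, norm_smul, Real.norm_eq_abs, abs_of_nonneg hs0,
      inner_sub_right]
    have h3 : 0 ≤ ‖D‖ ^ 2 := by positivity
    have q4 : - ‖D‖ ^ 2 ≤ T * (inner ℝ D v - inner ℝ D v') := by nlinarith
    have q5 : - ‖D‖ ^ 2 ≤ 2 * s * (inner ℝ D v - inner ℝ D v') := by
      by_cases h0 : 0 ≤ inner ℝ D v - inner ℝ D v'
      · have : 0 ≤ 2 * s * (inner ℝ D v - inner ℝ D v') := by positivity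
        linarith
      · push Not at h0
        nlinarith
    nlinarith
  exact (abs_le_abs (a := s * ‖v - v'‖) (b := ‖D + s • (v - v')‖) |> fun _ =>
    (pow_le_pow_iff_left₀ (by positivity) (norm_nonneg _) (two_ne_zero)).1 q3)

/-- Transversality: a slow ray stays near a fast leaf only for a short time. -/
theorem transv {δ r' : ℝ} {a v : F} {t1 t2 : ℝ} {p1 p2 : F}
    (h1 : ‖(a + t1 • v) - p1‖ < 2 * δ) (h2 : ‖(a + t2 • v) - p2‖ < 2 * δ)
    (hp : r' * |t1 - t2| ≤ ‖p1 - p2‖) : (r' - ‖v‖) * |t1 - t2| ≤ 4 * δ := by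
  have e : p1 - p2 = ((a + t2 • v) - p2) - ((a + t1 • v) - p1) + (t1 - t2) • v := by module
  have h3 : ‖p1 - p2‖ ≤ ‖(a + t2 • v) - p2‖ + ‖(a + t1 • v) - p1‖ + |t1 - t2| * ‖v‖ := by
    rw [e]
    refine (norm_add_le _ _).trans ?_
    rw [norm_smul, Real.norm_eq_abs]
    gcongr
    exact norm_sub_le _ _
  nlinarith

end Run7.h523.WF
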