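import Pool.Agent.Run7.h523.WF.Core
import Pool.Agent.Run7.h523.WF.Cordoba

set_option autoImplicit false

/-!
# Wave fronts: the discrete estimate
-/

open MeasureTheory Set Metric
open scoped ENNReal

namespace Run7.h523.WF

/-- Euclidean space `ℝ^d`. -/
abbrev E (d : ℕ) : Type := EuclideanSpace ℝ (Fin d)

/-- The part of the tube of radius `δ` around the line `(a + t v, t)` over the times in `J`. -/
def tube {d : ℕ} (δ : ℝ) (a v : E d) (J : Set ℝ) : Set (E d × ℝ) :=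
  {p | p.2 ∈ J ∧ ‖p.1 - (a + p.2 • v)‖ < δ}

theorem meas_tube {d : ℕ} {δ : ℝ} {a v : E d} {J : Set ℝ} (hJ : MeasurableSet J) :
    MeasurableSet (tube δ a v J) := by
  have h1 : MeasurableSet {p : E d × ℝ | ‖p.1 - (a + p.2 • v)‖ < δ} :=
    (isOpen_lt (by fun_prop) continuous_const).measurableSet
  exact (measurable_snd hJ).inter h1

theorem vol_tube {d : ℕ} {δ : ℝ} {a v : E d} {J : Set ℝ} (hJ : MeasurableSet J) :
    volume (tube δ a v J) = volume J * volume (ball (0 : E d) δ) := by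
  rw [Measure.volume_eq_prod, Measure.prod_apply_symm (meas_tube hJ)]
  have : ∀ t : ℝ, volume ((fun x : E d => (x, t)) ⁻¹' tube δ a v J) =
      J.indicator (fun _ => volume (ball (0 : E d) δ)) t := by
    intro t
    by_cases ht : t ∈ J
    · rw [indicator_of_mem ht]
      have : (fun x : E d => (x, t)) ⁻¹' tube δ a v J = ball (a + t • v) δ := by
        ext x
        simp [tube, ht, mem_ball, dist_eq_norm]
      rw [this, Measure.addHaar_ball_center]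
    · rw [indicator_of_notMem ht]
      have : (fun x : E d => (x, t)) ⁻¹' tube δ a v J = ∅ := by
        ext x
        simp [tube, ht]
      rw [this, measure_empty]
  simp_rw [this]
  rw [lintegral_indicator_const hJ, mul_comm]

/-- Sum of the reciprocals of the distances to a separated set of levels. -/
theorem level_sum {δ r0 : ℝ} (hδ : 0 < δ) (R : Finset ℝ) (hR : ∀ r ∈ R, r0 + δ ≤ r)
    (hsep : ∀ r ∈ R, ∀ r' ∈ R, r ≠ r' → δ ≤ |r - r'|) {M : ℕ} (hM : ∀ r ∈ R, r - r0 ≤ M * δ) :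
    ∑ r ∈ R, δ / (r - r0) ≤ ∑ i ∈ Finset.range M, 1 / ((i : ℝ) + 1) := by
  classical
  set φ : ℝ → ℕ := fun r => ⌊(r - r0) / δ⌋₊ - 1 with hφ
  have hfl : ∀ r ∈ R, 1 ≤ ⌊(r - r0) / δ⌋₊ := by
    intro r hr
    rw [Nat.one_le_floor_iff, le_div_iff₀ hδ]
    have := hR r hr
    linarith
  have hφ1 : ∀ r ∈ R, ((φ r : ℕ) : ℝ) + 1 = (⌊(r - r0) / δ⌋₊ : ℝ) := by
    intro r hr
    rw [hφ]
    have := hfl r hr
    simp only
    rw [Nat.cast_sub this]
    simp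
  have hinj : Set.InjOn φ R := by
    intro r hr r' hr' h
    by_contra hne
    have h1 := hsep r hr r' hr' hne
    have e : (⌊(r - r0) / δ⌋₊ : ℝ) = (⌊(r' - r0) / δ⌋₊ : ℝ) := by
      rw [← hφ1 r hr, ← hφ1 r' hr', h]
    have p1 : 0 ≤ (r - r0) / δ := by
      have := hR r hr
      exact div_nonneg (by linarith) hδ.le
    have p2 : 0 ≤ (r' - r0) / δ := by
      have := hR r' hr'
      exact div_nonneg (by linarith) hδ.le
    have a1 := Nat.floor_le p1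
    have a2 := Nat.lt_floor_add_one ((r - r0) / δ)
    have b1 := Nat.floor_le p2
    have b2 := Nat.lt_floor_add_one ((r' - r0) / δ)
    have h2 : |(r - r0) / δ - (r' - r0) / δ| < 1 := by
      rw [abs_lt]; constructor <;> linarith
    have h3 : (r - r0) / δ - (r' - r0) / δ = (r - r') / δ := by ring
    rw [h3, abs_div, abs_of_pos hδ, div_lt_one hδ] at h2
    linarith
  calc ∑ r ∈ R, δ / (r - r0) ≤ ∑ r ∈ R, 1 / (((φ r : ℕ) : ℝ) + 1) := by
        refine Finset.sum_le_sum fun r hr => ?_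
        rw [hφ1 r hr]
        have h1 := hR r hr
        have h2 : 0 < r - r0 := by linarith
        have h3 := Nat.floor_le (div_nonneg h2.le hδ.le)
        have h4 : (1:ℝ) ≤ (⌊(r - r0) / δ⌋₊ : ℝ) := by exact_mod_cast hfl r hr
        rw [div_le_div_iff₀ h2 (by linarith)]
        rw [le_div_iff₀ hδ] at h3
        nlinarith
    _ = ∑ i ∈ R.image φ, 1 / ((i : ℝ) + 1) := by
        rw [Finset.sum_image]
        exact hinj
    _ ≤ ∑ i ∈ Finset.range M, 1 / ((i : ℝ) + 1) := by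
        refine Finset.sum_le_sum_of_subset_of_nonneg ?_ fun i _ _ => by positivity
        intro i hi
        obtain ⟨r, hr, rfl⟩ := Finset.mem_image.1 hi
        rw [Finset.mem_range]
        have h1 := hR r hr
        have h2 : 0 < r - r0 := by linarith
        have h3 := Nat.floor_le (div_nonneg h2.le hδ.le)
        have h4 := hφ1 r hr
        have h5 := hM r hr
        have h6 : (⌊(r - r0) / δ⌋₊ : ℝ) ≤ M := by
          refine h3.trans ?_
          rw [div_le_iff₀ hδ]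
          exact h5
        have h7 : ((φ r : ℕ) : ℝ) + 1 ≤ M := by rw [h4]; exact h6
        have h8 : φ r + 1 ≤ M := by exact_mod_cast h7
        omega

section core

variable {d : ℕ} {T δ : ℝ} (V : Finset (E d)) (a : E d → E d) (J : E d → Set ℝ)

theorem disj_leaf (hT : 0 < T)
    (hach : ∀ v ∈ V, ∀ v' ∈ V, ‖v‖ = ‖v'‖ → Achr T (a v) v (a v') v')
    (hsep : ∀ v ∈ V, ∀ v' ∈ V, ‖v‖ = ‖v'‖ → v ≠ v' → 8 * δ / T ≤ ‖v - v'‖)
    (hJ : ∀ v ∈ V, J v ⊆ Icc (T / 4) (T / 2)) {v v' : E d} (hv : v ∈ V) (hv' : v' ∈ V)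
    (hn : ‖v‖ = ‖v'‖) (hne : v ≠ v') :
    Disjoint (tube δ (a v) v (J v)) (tube δ (a v') v' (J v')) := by
  rw [Set.disjoint_left]
  rintro ⟨x, t⟩ ⟨h1, h2⟩ ⟨h3, h4⟩
  simp only at h1 h2 h3 h4
  have ht := hJ v hv h1
  have h5 := leaf_sep hT hn (hach v hv v' hv' hn) (s := t) (by linarith [ht.1]) ht.2
  have h6 := hsep v hv v' hv' hn hne
  have h7 : ‖(a v + t • v) - (a v' + t • v')‖ < 2 * δ := by
    have e : (a v + t • v) - (a v' + t • v') = (x - (a v' + t • v')) - (x - (a v + t • v)) := by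
      abel
    rw [e]
    refine (norm_sub_le _ _).trans_lt ?_
    linarith
  have h8 : 2 * δ ≤ t * ‖v - v'‖ := by
    have h9 : 0 ≤ ‖v - v'‖ := norm_nonneg _
    have h10 : 8 * δ ≤ ‖v - v'‖ * T := by rwa [div_le_iff₀ hT] at h6
    nlinarith [ht.1]
  linarith

theorem pair_est (hT : 0 < T) (hδ : 0 < δ)
    (hach : ∀ v ∈ V, ∀ v' ∈ V, ‖v‖ = ‖v'‖ → Achr T (a v) v (a v') v')
    (hsep : ∀ v ∈ V, ∀ v' ∈ V, ‖v‖ = ‖v'‖ → v ≠ v' → 8 * δ / T ≤ ‖v - v'‖)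
    (hJm : ∀ v ∈ V, MeasurableSet (J v)) (hJ : ∀ v ∈ V, J v ⊆ Icc (T / 4) (T / 2))
    {v : E d} (hv : v ∈ V) {r : ℝ} (hr : ‖v‖ ≤ r) :
    ∑ v' ∈ V with ‖v'‖ = r, volume (tube δ (a v) v (J v) ∩ tube δ (a v') v' (J v')) ≤
      ENNReal.ofReal (if r = ‖v‖ then T else 4 * (δ / (r - ‖v‖))) *
        volume (ball (0 : E d) δ) := by
  classical
  set W := V.filter (fun v' => ‖v'‖ = r) with hW
  have hWV : ∀ v' ∈ W, v' ∈ V ∧ ‖v'‖ = r := fun v' h => Finset.mem_filter.1 h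
  set τ : Set ℝ := Icc (T / 4) (T / 2) ∩ ⋃ v' ∈ W, {t | ‖(a v + t • v) - (a v' + t • v')‖ < 2 * δ}
    with hτ
  have hτm : MeasurableSet τ := by
    refine measurableSet_Icc.inter (Finset.measurableSet_biUnion _ fun v' _ => ?_)
    exact (isOpen_lt (by fun_prop) continuous_const).measurableSet
  have h1 : ∑ v' ∈ W, volume (tube δ (a v) v (J v) ∩ tube δ (a v') v' (J v')) =
      volume (⋃ v' ∈ W, tube δ (a v) v (J v) ∩ tube δ (a v') v' (J v')) := by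
    rw [measure_biUnion_finset]
    · intro v1 h1 v2 h2 hne
      have hd := disj_leaf V a J hT hach hsep hJ (hWV v1 h1).1 (hWV v2 h2).1
        ((hWV v1 h1).2.trans (hWV v2 h2).2.symm) hne
      exact hd.mono inter_subset_right inter_subset_right
    · intro v' hv'
      exact (meas_tube (hJm v hv)).inter (meas_tube (hJm v' (hWV v' hv').1))
  rw [h1]
  have h2 : (⋃ v' ∈ W, tube δ (a v) v (J v) ∩ tube δ (a v') v' (J v')) ⊆ tube δ (a v) v τ := by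
    intro p hp
    obtain ⟨v', hv', ⟨h3, h4⟩, h5, h6⟩ := mem_iUnion₂.1 hp
    refine ⟨⟨hJ v hv h3, mem_iUnion₂.2 ⟨v', hv', ?_⟩⟩, h4⟩
    have e : (a v + p.2 • v) - (a v' + p.2 • v') =
        (p.1 - (a v' + p.2 • v')) - (p.1 - (a v + p.2 • v)) := by abel
    rw [Set.mem_ofPred_eq, e]
    refine (norm_sub_le _ _).trans_lt ?_
    linarith
  refine (measure_mono h2).trans ?_
  rw [vol_tube hτm]
  gcongr
  split_ifs with hreq
  · refine (measure_mono inter_subset_left).trans ?_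
    rw [Real.volume_Icc]
    apply ENNReal.ofReal_le_ofReal
    linarith
  · have hlt : ‖v‖ < r := lt_of_le_of_ne hr (Ne.symm hreq)
    refine (Real.volume_le_diam τ).trans ?_
    refine Metric.ediam_le fun t1 ht1 t2 ht2 => ?_
    obtain ⟨v1, hv1, h3⟩ := mem_iUnion₂.1 ht1.2
    obtain ⟨v2, hv2, h4⟩ := mem_iUnion₂.1 ht2.2
    have h5 := hach v1 (hWV v1 hv1).1 v2 (hWV v2 hv2).1 ((hWV v1 hv1).2.trans (hWV v2 hv2).2.symm)
      t1 ⟨by linarith [ht1.1.1], by linarith [ht1.1.2]⟩ t2 ⟨by linarith [ht2.1.1],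
      by linarith [ht2.1.2]⟩
    rw [(hWV v1 hv1).2] at h5
    have h6 := transv (a := a v) (v := v) h3 h4 h5
    rw [edist_dist, Real.dist_eq]
    apply ENNReal.ofReal_le_ofReal
    rw [← mul_div_assoc, le_div_iff₀ (by linarith)]
    linarith

theorem row_est (hT : 0 < T) (hδ : 0 < δ)
    (hach : ∀ v ∈ V, ∀ v' ∈ V, ‖v‖ = ‖v'‖ → Achr T (a v) v (a v') v')
    (hlev : ∀ v ∈ V, ∀ v' ∈ V, ‖v‖ = ‖v'‖ ∨ δ ≤ |‖v‖ - ‖v'‖|)
    (hsep : ∀ v ∈ V, ∀ v' ∈ V, ‖v‖ = ‖v'‖ → v ≠ v' → 8 * δ / T ≤ ‖v - v'‖)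
    {M : ℕ} (hM : ∀ v ∈ V, ‖v‖ ≤ M * δ)
    (hJm : ∀ v ∈ V, MeasurableSet (J v)) (hJ : ∀ v ∈ V, J v ⊆ Icc (T / 4) (T / 2))
    {v : E d} (hv : v ∈ V) :
    ∑ v' ∈ V with ‖v‖ ≤ ‖v'‖, volume (tube δ (a v) v (J v) ∩ tube δ (a v') v' (J v')) ≤
      ENNReal.ofReal (T + 4 * ∑ i ∈ Finset.range M, 1 / ((i : ℝ) + 1)) *
        volume (ball (0 : E d) δ) := by
  classical
  set R : Finset ℝ := (V.filter (fun v' => ‖v‖ ≤ ‖v'‖)).image (fun v' => ‖v'‖) with hR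
  have hRmem : ∀ r ∈ R, ∃ v' ∈ V, ‖v'‖ = r ∧ ‖v‖ ≤ r := by
    intro r hr
    obtain ⟨v', h1, h2⟩ := Finset.mem_image.1 hr
    obtain ⟨h3, h4⟩ := Finset.mem_filter.1 h1
    exact ⟨v', h3, h2, h2 ▸ h4⟩
  have hvR : ‖v‖ ∈ R := by
    rw [hR, Finset.mem_image]
    exact ⟨v, Finset.mem_filter.2 ⟨hv, le_rfl⟩, rfl⟩
  have h1 : ∑ v' ∈ V with ‖v‖ ≤ ‖v'‖, volume (tube δ (a v) v (J v) ∩ tube δ (a v') v' (J v')) =
      ∑ r ∈ R, ∑ v' ∈ V with ‖v'‖ = r,
        volume (tube δ (a v) v (J v) ∩ tube δ (a v') v' (J v')) := by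
    rw [← Finset.sum_fiberwise_of_maps_to (s := V.filter (fun v' => ‖v‖ ≤ ‖v'‖)) (t := R)
      (g := fun v' => ‖v'‖) (fun v' hv' => Finset.mem_image_of_mem _ hv')]
    refine Finset.sum_congr rfl fun r hr => ?_
    obtain ⟨_, _, _, h4⟩ := hRmem r hr
    congr 1
    ext v'
    simp only [Finset.mem_filter]
    constructor
    · rintro ⟨⟨h1, _⟩, h3⟩
      exact ⟨h1, h3⟩
    · rintro ⟨h1, h3⟩
      exact ⟨⟨h1, h3 ▸ h4⟩, h3⟩
  rw [h1]
  have h2 : ∑ r ∈ R, ∑ v' ∈ V with ‖v'‖ = r,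
        volume (tube δ (a v) v (J v) ∩ tube δ (a v') v' (J v')) ≤
      ∑ r ∈ R, ENNReal.ofReal (if r = ‖v‖ then T else 4 * (δ / (r - ‖v‖))) *
        volume (ball (0 : E d) δ) := by
    refine Finset.sum_le_sum fun r hr => ?_
    obtain ⟨_, _, _, h4⟩ := hRmem r hr
    exact pair_est V a J hT hδ hach hsep hJm hJ hv h4
  refine h2.trans ?_
  rw [← Finset.sum_mul]
  gcongr
  rw [← ENNReal.ofReal_sum_of_nonneg]
  · apply ENNReal.ofReal_le_ofReal
    rw [← Finset.add_sum_erase _ _ hvR]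
    simp only [if_true]
    gcongr
    have h3 : ∀ r ∈ R.erase ‖v‖, (if r = ‖v‖ then T else 4 * (δ / (r - ‖v‖))) =
        4 * (δ / (r - ‖v‖)) := by
      intro r hr
      rw [if_neg (Finset.ne_of_mem_erase hr)]
    rw [Finset.sum_congr rfl h3, ← Finset.mul_sum]
    gcongr
    have hs : ∀ r ∈ R, ∀ r' ∈ R, r ≠ r' → δ ≤ |r - r'| := by
      intro r hr r' hr' hne
      obtain ⟨v1, h5, h6, _⟩ := hRmem r hr
      obtain ⟨v2, h7, h8, _⟩ := hRmem r' hr'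
      rcases hlev v1 h5 v2 h7 with h | h
      · exact absurd (h6.symm.trans (h.trans h8)) hne
      · rwa [h6, h8] at h
    refine level_sum hδ _ ?_ ?_ ?_
    · intro r hr
      have h5 := Finset.mem_of_mem_erase hr
      have h6 := Finset.ne_of_mem_erase hr
      obtain ⟨_, _, _, h4⟩ := hRmem r h5
      have h7 := hs r h5 _ hvR h6
      rw [abs_of_nonneg (by linarith)] at h7
      linarith
    · intro r hr r' hr' hne
      exact hs r (Finset.mem_of_mem_erase hr) r' (Finset.mem_of_mem_erase hr') hne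
    · intro r hr
      obtain ⟨v', h5, h6, _⟩ := hRmem r (Finset.mem_of_mem_erase hr)
      have := hM v' h5
      have h7 := norm_nonneg v
      linarith
  · intro r hr
    obtain ⟨_, _, _, h4⟩ := hRmem r hr
    split_ifs with h
    · exact hT.le
    · have : 0 ≤ r - ‖v‖ := by linarith
      positivity

/-- **The discrete estimate.** -/
theorem core (hT : 0 < T) (hδ : 0 < δ)
    (hach : ∀ v ∈ V, ∀ v' ∈ V, ‖v‖ = ‖v'‖ → Achr T (a v) v (a v') v')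
    (hlev : ∀ v ∈ V, ∀ v' ∈ V, ‖v‖ = ‖v'‖ ∨ δ ≤ |‖v‖ - ‖v'‖|)
    (hsep : ∀ v ∈ V, ∀ v' ∈ V, ‖v‖ = ‖v'‖ → v ≠ v' → 8 * δ / T ≤ ‖v - v'‖)
    {M : ℕ} (hM : ∀ v ∈ V, ‖v‖ ≤ M * δ)
    (hJm : ∀ v ∈ V, MeasurableSet (J v)) (hJ : ∀ v ∈ V, J v ⊆ Icc (T / 4) (T / 2)) :
    (∑ v ∈ V, volume (J v)) ^ 2 * volume (ball (0 : E d) δ) ≤
      2 * (V.card : ℝ≥0∞) * ENNReal.ofReal (T + 4 * ∑ i ∈ Finset.range M, 1 / ((i : ℝ) + 1)) *
        volume (⋃ v ∈ V, tube δ (a v) v (J v)) := by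
  classical
  set B := volume (ball (0 : E d) δ) with hB
  set C := ENNReal.ofReal (T + 4 * ∑ i ∈ Finset.range M, 1 / ((i : ℝ) + 1)) with hC
  set A : E d → Set (E d × ℝ) := fun v => tube δ (a v) v (J v) with hA
  have hB0 : B ≠ 0 := (measure_ball_pos volume _ hδ).ne'
  have hBt : B ≠ ∞ := measure_ball_lt_top.ne
  have h1 := cordoba (volume : Measure (E d × ℝ)) V A (fun v hv => meas_tube (hJm v hv))
  have h2 : ∑ v ∈ V, volume (A v) = (∑ v ∈ V, volume (J v)) * B := by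
    rw [Finset.sum_mul]
    exact Finset.sum_congr rfl fun v hv => vol_tube (hJm v hv)
  have h3 : ∑ v ∈ V, ∑ v' ∈ V, volume (A v ∩ A v') ≤ 2 * (V.card : ℝ≥0∞) * C * B := by
    have h4 : ∀ v ∈ V, ∑ v' ∈ V, volume (A v ∩ A v') ≤
        ∑ v' ∈ V with ‖v‖ ≤ ‖v'‖, volume (A v ∩ A v') +
        ∑ v' ∈ V with ‖v'‖ ≤ ‖v‖, volume (A v ∩ A v') := by
      intro v _
      rw [← Finset.sum_filter_add_sum_filter_not V (fun v' => ‖v‖ ≤ ‖v'‖)]
      have hsub : V.filter (fun v' => ¬ ‖v‖ ≤ ‖v'‖) ⊆ V.filter (fun v' => ‖v'‖ ≤ ‖v‖) := by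
        intro v' hv'
        rw [Finset.mem_filter] at hv' ⊢
        exact ⟨hv'.1, (not_le.1 hv'.2).le⟩
      exact add_le_add le_rfl (Finset.sum_le_sum_of_subset
        (f := fun v' => volume (A v ∩ A v')) hsub)
    have h5 : ∑ v ∈ V, ∑ v' ∈ V with ‖v'‖ ≤ ‖v‖, volume (A v ∩ A v') =
        ∑ v ∈ V, ∑ v' ∈ V with ‖v‖ ≤ ‖v'‖, volume (A v ∩ A v') := by
      simp_rw [Finset.sum_filter]
      rw [Finset.sum_comm]
      refine Finset.sum_congr rfl fun v _ => Finset.sum_congr rfl fun v' _ => ?_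
      rw [inter_comm]
    have h6 : ∑ v ∈ V, ∑ v' ∈ V with ‖v‖ ≤ ‖v'‖, volume (A v ∩ A v') ≤ (V.card : ℝ≥0∞) * (C * B) := by
      rw [← nsmul_eq_mul]
      refine Finset.sum_le_card_nsmul _ _ _ fun v hv => ?_
      exact row_est V a J hT hδ hach hlev hsep hM hJm hJ hv
    calc ∑ v ∈ V, ∑ v' ∈ V, volume (A v ∩ A v')
        ≤ ∑ v ∈ V, (∑ v' ∈ V with ‖v‖ ≤ ‖v'‖, volume (A v ∩ A v') +
          ∑ v' ∈ V with ‖v'‖ ≤ ‖v‖, volume (A v ∩ A v')) := Finset.sum_le_sum h4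
      _ = 2 * ∑ v ∈ V, ∑ v' ∈ V with ‖v‖ ≤ ‖v'‖, volume (A v ∩ A v') := by
          rw [Finset.sum_add_distrib, h5, two_mul]
      _ ≤ 2 * ((V.card : ℝ≥0∞) * (C * B)) := by gcongr
      _ = _ := by ring
  rw [h2] at h1
  have h4 : (∑ v ∈ V, volume (J v)) ^ 2 * B * B ≤
      2 * (V.card : ℝ≥0∞) * C * volume (⋃ v ∈ V, A v) * B := by
    calc (∑ v ∈ V, volume (J v)) ^ 2 * B * B = ((∑ v ∈ V, volume (J v)) * B) ^ 2 := by ring
      _ ≤ (∑ v ∈ V, ∑ v' ∈ V, volume (A v ∩ A v')) * volume (⋃ v ∈ V, A v) := h1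
      _ ≤ (2 * (V.card : ℝ≥0∞) * C * B) * volume (⋃ v ∈ V, A v) := by gcongr
      _ = _ := by ring
  exact (ENNReal.mul_le_mul_iff_left hB0 hBt).1 h4

end core

end Run7.h523.WF
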