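import Pool.Agent.Run7.h523.WF.Reduce

set_option autoImplicit false

/-!
# Kakeya sets of wave fronts
-/

open MeasureTheory Set Metric Filter Topology
open scoped ENNReal NNReal Pointwise

namespace Run7.h523.WF

variable {d : ℕ}

theorem nbhd {ρ₀ ρ₁ T η : ℝ} (hρ : 0 < ρ₀) (hρ1 : 0 < ρ₁) (hT : 0 < T)
    (hη : 0 < η) (A : Set (E d)) (a : E d → E d) (K : Set (E (d + 1)))
    (L : E (d + 1) ≃ₗᵢ[ℝ] E (d + 1)) (t₀ : ℝ) (hBig : Big ρ₀ ρ₁ η A)
    (hach : ∀ v ∈ A, ∀ v' ∈ A, ‖v‖ = ‖v'‖ → Achr T (a v) v (a v') v')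
    (hK : ∀ v ∈ A, ∀ t ∈ Icc (0 : ℝ) T, Phi L t₀ (a v + t • v, t) ∈ K) :
    ∃ c > 0, ∀ δ : ℝ, 0 < δ → δ ≤ 1 / 2 →
      ENNReal.ofReal (c / Real.log (1 / δ)) ≤ volume (thickening δ K) := by
  obtain ⟨c, hc, hmass⟩ := mass (d := d) hρ hρ1.le hT
  set δ₀ : ℝ := min (1 / 2) (ρ₀ * T / 8) with hδ₀
  have hδ₀0 : 0 < δ₀ := lt_min (by norm_num) (by positivity)
  have hsmall : ∀ δ : ℝ, 0 < δ → δ ≤ δ₀ →
      ENNReal.ofReal (c * (η * (T / 4)) ^ 2 / Real.log (1 / δ)) ≤ volume (thickening δ K) := by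
    intro δ hδ hδ1
    have h1 : 8 * δ / T ≤ ρ₀ := by
      rw [div_le_iff₀ hT]
      have := hδ1.trans (min_le_right _ _)
      linarith
    have h2 := hmass η δ (T / 4) A a (fun _ => Icc (T / 4) (T / 2)) hη (by positivity) hδ
      (hδ1.trans (min_le_left _ _)) h1 hBig hach (fun _ _ => measurableSet_Icc)
      (fun _ _ => subset_rfl) (fun _ _ => by
        rw [Real.volume_Icc]
        apply ENNReal.ofReal_le_ofReal
        linarith)
    refine h2.trans ?_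
    rw [← (measurePreserving_Phi L t₀).measure_preimage isOpen_thickening.measurableSet.nullMeasurableSet]
    apply measure_mono
    intro p hp
    obtain ⟨v, hv, h3, h4⟩ := mem_iUnion₂.1 hp
    rw [mem_preimage, mem_thickening_iff]
    refine ⟨_, hK v hv p.2 ⟨by linarith [h3.1], by linarith [h3.2]⟩, ?_⟩
    rw [dist_eq_norm]
    apply lt_of_pow_lt_pow_left₀ 2 hδ.le
    rw [norm_Phi_sub_sq]
    simp only [sub_self]
    have h5 := norm_nonneg (p.1 - (a v + p.2 • v))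
    nlinarith
  have hl2 : 0 < Real.log 2 := Real.log_pos (by norm_num)
  have hlog0 : Real.log 2 ≤ Real.log (1 / δ₀) := by
    apply Real.log_le_log (by norm_num)
    rw [le_div_iff₀ hδ₀0]
    have := min_le_left (1 / 2) (ρ₀ * T / 8)
    linarith
  have hlogp : 0 < Real.log (1 / δ₀) := hl2.trans_le hlog0
  set C := c * (η * (T / 4)) ^ 2 with hC
  have hC0 : 0 < C := by positivity
  refine ⟨C * Real.log 2 / Real.log (1 / δ₀), by positivity, ?_⟩
  intro δ hδ hδ2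
  have hlog : Real.log 2 ≤ Real.log (1 / δ) := by
    apply Real.log_le_log (by norm_num)
    rw [le_div_iff₀ hδ]
    linarith
  have hlogδ : 0 < Real.log (1 / δ) := hl2.trans_le hlog
  rcases le_total δ δ₀ with h | h
  · refine le_trans (ENNReal.ofReal_le_ofReal ?_) (hsmall δ hδ h)
    gcongr
    rw [div_le_iff₀ hlogp]
    gcongr
  · refine le_trans (ENNReal.ofReal_le_ofReal ?_) ((hsmall δ₀ hδ₀0 le_rfl).trans
      (measure_mono (thickening_mono h K)))
    rw [div_div, div_le_div_iff₀ (by positivity) hlogp]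
    calc C * Real.log 2 * Real.log (1 / δ₀) ≤ C * Real.log (1 / δ) * Real.log (1 / δ₀) := by
          gcongr
      _ = C * (Real.log (1 / δ₀) * Real.log (1 / δ)) := by ring

/-- **Sets meeting the segments of a front family in positive length have full dimension.** -/
theorem dim_front (hd : 1 ≤ d) {u : E (d + 1)} (hu : ‖u‖ = 1)
    {S : Set (sphere (0 : E (d + 1)) 1)} (hSm : MeasurableSet S)
    (hS : 0 < (volume : Measure (E (d + 1))).toSphere S)
    (x : E (d + 1) → E (d + 1)) (α β : E (d + 1) → ℝ)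
    (hfront : ∀ e ∈ S, ∃ ρ > 0, Front u S x α β (e : E (d + 1)) ρ)
    (K : Set (E (d + 1)))
    (hK : ∀ e ∈ S, 0 < volume {s : ℝ | s ∈ Icc (α e) (β e) ∧ x e + s • (e : E (d + 1)) ∈ K}) :
    dimH K = ((d + 1 : ℕ) : ℝ≥0∞) := by
  obtain ⟨L, t₀, T, ρ₀, ρ₁, η, A, a, hT, hρ₀, hρ₁, hη, hBig, hach, hKt, _⟩ :=
    reduce hd hu hSm hS x α β hfront K hK
  apply le_antisymm
  · refine (dimH_mono (subset_univ K)).trans (le_of_eq ?_)
    rw [Real.dimH_univ_eq_finrank]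
    simp
  · exact (haus hρ₀ hρ₁.le hT hη A a (Phi L t₀ ⁻¹' K) hBig hach hKt).trans
      (dimH_preimage_Phi L t₀ K)

/-- **Neighbourhoods of sets containing the segments of a front family.** -/
theorem nbhd_front (hd : 1 ≤ d) {u : E (d + 1)} (hu : ‖u‖ = 1)
    {S : Set (sphere (0 : E (d + 1)) 1)} (hSm : MeasurableSet S)
    (hS : 0 < (volume : Measure (E (d + 1))).toSphere S)
    (x : E (d + 1) → E (d + 1)) (α β : E (d + 1) → ℝ) (hαβ : ∀ e ∈ S, α e < β e)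
    (hfront : ∀ e ∈ S, ∃ ρ > 0, Front u S x α β (e : E (d + 1)) ρ)
    (K : Set (E (d + 1)))
    (hK : ∀ e ∈ S, ∀ s ∈ Icc (α e) (β e), x e + s • (e : E (d + 1)) ∈ K) :
    ∃ c > 0, ∀ δ : ℝ, 0 < δ → δ ≤ 1 / 2 →
      ENNReal.ofReal (c / Real.log (1 / δ)) ≤ volume (thickening δ K) := by
  obtain ⟨L, t₀, T, ρ₀, ρ₁, η, A, a, hT, hρ₀, hρ₁, hη, hBig, hach, _, hKf⟩ :=
    reduce hd hu hSm hS x α β hfront K (by
      intro e he
      have h1 : {s : ℝ | s ∈ Icc (α e) (β e) ∧ x e + s • (e : E (d + 1)) ∈ K} =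
          Icc (α e) (β e) := by
        ext s
        exact ⟨fun h => h.1, fun h => ⟨h, hK e he s h⟩⟩
      rw [h1, Real.volume_Icc]
      exact ENNReal.ofReal_pos.2 (sub_pos.2 (hαβ e he)))
  refine nbhd hρ₀ hρ₁ hT hη A a K L t₀ hBig hach fun v hv t ht => ?_
  obtain ⟨e, he, s, hs, h1⟩ := hKf v hv t ht
  rw [h1]
  exact hK e he s hs

end Run7.h523.WF
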