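import Pool.Agent.Run7.h523.WF.Big

set_option autoImplicit false

/-!
# The mass estimate
-/

open MeasureTheory Set Metric
open scoped ENNReal

namespace Run7.h523.WF

theorem Big.mono {d : ℕ} {ρ₀ ρ₁ η : ℝ} {A B : Set (E d)} (hAB : A ⊆ B)
    (h : Big ρ₀ ρ₁ η A) : Big ρ₀ ρ₁ η B := by
  refine h.trans (measure_mono ?_)
  rintro r ⟨h1, h2⟩
  exact ⟨h1, h2.trans (measure_mono fun ω hω => hAB hω)⟩

/-- Countable decompositions. -/
theorem Big.exists_of_cover {d : ℕ} {ρ₀ ρ₁ η : ℝ} (hη : 0 < η) {A : Set (E d)} {ι : Type*}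
    [Countable ι] (B : ι → Set (E d)) (hAB : A ⊆ ⋃ i, B i) (w : ι → ℝ)
    (hsum : ∑' i, ENNReal.ofReal (w i) < 1) (h : Big ρ₀ ρ₁ η A) :
    ∃ i, Big ρ₀ ρ₁ (η * w i) (B i) := by
  by_contra hcon
  push Not at hcon
  unfold Big at hcon h
  simp only [not_le] at hcon
  have hη' : ENNReal.ofReal η ≠ 0 := (ENNReal.ofReal_pos.2 hη).ne'
  have hs : ∑' i, ENNReal.ofReal (η * w i) < ENNReal.ofReal η := by
    have : ∀ i, ENNReal.ofReal (η * w i) = ENNReal.ofReal η * ENNReal.ofReal (w i) :=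
      fun i => ENNReal.ofReal_mul hη.le
    simp_rw [this]
    rw [ENNReal.tsum_mul_left]
    calc ENNReal.ofReal η * ∑' i, ENNReal.ofReal (w i) < ENNReal.ofReal η * 1 :=
          (ENNReal.mul_lt_mul_iff_right hη' ENNReal.ofReal_ne_top).2 hsum
      _ = _ := mul_one _
  have h1 : volume (⋃ i, {r : ℝ | r ∈ Icc ρ₀ ρ₁ ∧
      ENNReal.ofReal (η * w i) ≤ sg d {ω | r • (ω : E d) ∈ B i}}) < ENNReal.ofReal η := by
    refine lt_of_le_of_lt (measure_iUnion_le _) (lt_of_le_of_lt ?_ hs)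
    exact ENNReal.tsum_le_tsum fun i => (hcon i).le
  obtain ⟨r, hr, hr2⟩ : ∃ r ∈ {r : ℝ | r ∈ Icc ρ₀ ρ₁ ∧
      ENNReal.ofReal η ≤ sg d {ω | r • (ω : E d) ∈ A}}, r ∉ ⋃ i, {r : ℝ | r ∈ Icc ρ₀ ρ₁ ∧
      ENNReal.ofReal (η * w i) ≤ sg d {ω | r • (ω : E d) ∈ B i}} := by
    by_contra hc
    push Not at hc
    exact absurd (h.trans (measure_mono hc)) (not_le.2 h1)
  have h2 : ∀ i, sg d {ω | r • (ω : E d) ∈ B i} < ENNReal.ofReal (η * w i) := by
    intro i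
    by_contra hc
    exact hr2 (mem_iUnion.2 ⟨i, hr.1, not_lt.1 hc⟩)
  have h3 : sg d {ω | r • (ω : E d) ∈ A} ≤ ∑' i, sg d {ω | r • (ω : E d) ∈ B i} := by
    refine le_trans (measure_mono ?_) (measure_iUnion_le _)
    intro ω hω
    obtain ⟨i, hi⟩ := mem_iUnion.1 (hAB hω)
    exact mem_iUnion.2 ⟨i, hi⟩
  have h4 := hr.2.trans (h3.trans (ENNReal.tsum_le_tsum fun i => (h2 i).le))
  exact absurd h4 (not_le.2 hs)

theorem Big.exists_of_countable {d : ℕ} {ρ₀ ρ₁ η : ℝ} (hη : 0 < η) {A : Set (E d)} {ι : Type*}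
    [Countable ι] (B : ι → Set (E d)) (hAB : A ⊆ ⋃ i, B i) (h : Big ρ₀ ρ₁ η A) :
    ∃ i, ∃ η' > 0, Big ρ₀ ρ₁ η' (B i) := by
  obtain ⟨w, hw0, hws⟩ := ENNReal.exists_pos_sum_of_countable one_ne_zero ι
  have h1 : ∑' i, ENNReal.ofReal ((w i : ℝ)) < 1 := by simpa using hws
  obtain ⟨i, hi⟩ := h.exists_of_cover hη B hAB (fun i => (w i : ℝ)) h1
  exact ⟨i, η * w i, mul_pos hη (by exact_mod_cast hw0 i), hi⟩

theorem harm_le (M : ℕ) : ∑ i ∈ Finset.range M, 1 / ((i : ℝ) + 1) ≤ 1 + Real.log M := by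
  have h := harmonic_le_one_add_log M
  have e : ((harmonic M : ℚ) : ℝ) = ∑ i ∈ Finset.range M, 1 / ((i : ℝ) + 1) := by
    rw [harmonic]
    push_cast
    exact Finset.sum_congr rfl fun i _ => by rw [one_div]
  rwa [e] at h

/-- **The mass estimate.** -/
theorem mass {d : ℕ} {ρ₀ ρ₁ T : ℝ} (hρ : 0 < ρ₀) (hρ1 : 0 ≤ ρ₁) (hT : 0 < T) :
    ∃ c > 0, ∀ (η δ lam : ℝ) (A : Set (E d)) (a : E d → E d) (J : E d → Set ℝ),
      0 < η → 0 < lam → 0 < δ → δ ≤ 1 / 2 → 8 * δ / T ≤ ρ₀ → Big ρ₀ ρ₁ η A →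
      (∀ v ∈ A, ∀ v' ∈ A, ‖v‖ = ‖v'‖ → Achr T (a v) v (a v') v') →
      (∀ v ∈ A, MeasurableSet (J v)) → (∀ v ∈ A, J v ⊆ Icc (T / 4) (T / 2)) →
      (∀ v ∈ A, ENNReal.ofReal lam ≤ volume (J v)) →
      ENNReal.ofReal (c * (η * lam) ^ 2 / Real.log (1 / δ)) ≤
        volume (⋃ v ∈ A, tube δ (a v) v (J v)) := by
  obtain ⟨c₁, hc₁, hnet⟩ := net (d := d) (ρ₁ := ρ₁) hρ hT
  set b : ℝ := (volume (ball (0 : E d) 1)).toReal with hb
  have hb0 : 0 < b := ENNReal.toReal_pos (measure_ball_pos volume _ one_pos).ne'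
    measure_ball_lt_top.ne
  have hl2 : 0 < Real.log 2 := Real.log_pos (by norm_num)
  set C₂ : ℝ := (T + 4 + 4 * Real.log (ρ₁ + 1)) / Real.log 2 + 4 with hC₂
  have hlρ : 0 ≤ Real.log (ρ₁ + 1) := Real.log_nonneg (by linarith)
  have hC₂0 : 0 < C₂ := by positivity
  refine ⟨c₁ * b / (2 * C₂), by positivity, ?_⟩
  intro η δ lam A a J hη hlam hδ hδ2 hδT hBig hach hJm hJ hJl
  obtain ⟨V, hVA, hVn, hVl, hVs, hVc⟩ := hnet η δ A hη hδ hδT hBig
  set M : ℕ := ⌈(ρ₁ + 1) / δ⌉₊ - 1 with hM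
  have hMx : 0 < (ρ₁ + 1) / δ := by positivity
  have hM1 : 1 ≤ ⌈(ρ₁ + 1) / δ⌉₊ := Nat.one_le_ceil_iff.2 hMx
  have hM' : ((M : ℕ) : ℝ) + 1 = (⌈(ρ₁ + 1) / δ⌉₊ : ℝ) := by
    rw [hM, Nat.cast_sub hM1]; simp
  have hMa : (ρ₁ + 1) / δ ≤ (M : ℝ) + 1 := by rw [hM']; exact Nat.le_ceil _
  have hMb : (M : ℝ) ≤ (ρ₁ + 1) / δ := by
    have h1 := Nat.ceil_lt_add_one hMx.le
    rw [← hM'] at h1
    linarith
  have hMδ : ρ₁ ≤ M * δ := by
    rw [div_le_iff₀ hδ] at hMa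
    nlinarith
  have hM0 : (0 : ℝ) < M := by
    rw [div_le_iff₀ hδ] at hMa
    by_contra hc
    have : (M : ℝ) ≤ 0 := not_lt.1 hc
    nlinarith
  have hL : Real.log 2 ≤ Real.log (1 / δ) := by
    apply Real.log_le_log (by norm_num)
    rw [le_div_iff₀ hδ]; linarith
  have hL0 : 0 < Real.log (1 / δ) := hl2.trans_le hL
  have hH : T + 4 * ∑ i ∈ Finset.range M, 1 / ((i : ℝ) + 1) ≤ C₂ * Real.log (1 / δ) := by
    have h1 := harm_le M
    have h2 : Real.log M ≤ Real.log (ρ₁ + 1) + Real.log (1 / δ) := by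
      rw [← Real.log_mul (by positivity) (by positivity)]
      apply Real.log_le_log hM0
      rw [mul_one_div]
      exact hMb
    have h3 : T + 4 + 4 * Real.log (ρ₁ + 1) ≤
        (T + 4 + 4 * Real.log (ρ₁ + 1)) / Real.log 2 * Real.log (1 / δ) := by
      rw [div_mul_eq_mul_div, le_div_iff₀ hl2]
      have : 0 ≤ T + 4 + 4 * Real.log (ρ₁ + 1) := by positivity
      gcongr
    rw [hC₂, add_mul]
    linarith
  have hcore := core V a J hT hδ (fun v hv v' hv' => hach v (hVA hv) v' (hVA hv')) hVl hVs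
    (M := M) (fun v hv => (hVn v hv).2.trans hMδ) (fun v hv => hJm v (hVA hv))
    (fun v hv => hJ v (hVA hv))
  have hVpos : 0 < (V.card : ℝ) := by
    have h1 : 0 < c₁ * η ^ 2 := by positivity
    have h2 : 0 < (V.card : ℝ) * δ ^ d := h1.trans_le hVc
    by_contra hc
    have h3 : (V.card : ℝ) ≤ 0 := not_lt.1 hc
    have h4 : 0 < δ ^ d := by positivity
    nlinarith
  set U := ⋃ v ∈ V, tube δ (a v) v (J v) with hU
  have hUA : U ⊆ ⋃ v ∈ A, tube δ (a v) v (J v) := by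
    intro p hp
    obtain ⟨v, hv, h1⟩ := mem_iUnion₂.1 hp
    exact mem_iUnion₂.2 ⟨v, hVA hv, h1⟩
  refine le_trans ?_ (measure_mono hUA)
  have h1 : ENNReal.ofReal (V.card * lam) ≤ ∑ v ∈ V, volume (J v) := by
    rw [ENNReal.ofReal_mul (by positivity), ENNReal.ofReal_natCast, ← nsmul_eq_mul]
    exact Finset.card_nsmul_le_sum _ _ _ fun v hv => hJl v (hVA hv)
  have h2 : ENNReal.ofReal ((V.card * lam) ^ 2 * (δ ^ d * b)) ≤
      ENNReal.ofReal (2 * V.card * (C₂ * Real.log (1 / δ))) * volume U := by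
    calc ENNReal.ofReal ((V.card * lam) ^ 2 * (δ ^ d * b))
        = ENNReal.ofReal (V.card * lam) ^ 2 * volume (ball (0 : E d) δ) := by
          rw [ENNReal.ofReal_mul (by positivity), ENNReal.ofReal_pow (by positivity),
            Measure.addHaar_ball_of_pos _ _ hδ, finrank_euclideanSpace_fin,
            ENNReal.ofReal_mul (p := δ ^ d) (by positivity), hb,
            ENNReal.ofReal_toReal measure_ball_lt_top.ne]
      _ ≤ (∑ v ∈ V, volume (J v)) ^ 2 * volume (ball (0 : E d) δ) := by gcongr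
      _ ≤ _ := hcore
      _ ≤ ENNReal.ofReal (2 * V.card * (C₂ * Real.log (1 / δ))) * volume U := by
          gcongr
          rw [ENNReal.ofReal_mul (by positivity), ENNReal.ofReal_mul (by norm_num),
            ENNReal.ofReal_natCast]
          have : ENNReal.ofReal 2 = 2 := by norm_num
          rw [this]
          gcongr
  have hpos : 0 < 2 * (V.card : ℝ) * (C₂ * Real.log (1 / δ)) := by positivity
  have h3 : ENNReal.ofReal ((V.card * lam) ^ 2 * (δ ^ d * b) /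
      (2 * V.card * (C₂ * Real.log (1 / δ)))) ≤ volume U := by
    rw [ENNReal.ofReal_div_of_pos hpos]
    apply ENNReal.div_le_of_le_mul
    rwa [mul_comm (volume U)]
  refine le_trans (ENNReal.ofReal_le_ofReal ?_) h3
  rw [div_le_div_iff₀ hL0 hpos]
  have h4 : c₁ * b / (2 * C₂) * (η * lam) ^ 2 * (2 * V.card * (C₂ * Real.log (1 / δ))) =
      (c₁ * η ^ 2) * (b * lam ^ 2 * V.card * Real.log (1 / δ)) := by
    field_simp
  have h5 : (V.card * lam) ^ 2 * (δ ^ d * b) * Real.log (1 / δ) =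
      (V.card * δ ^ d) * (b * lam ^ 2 * V.card * Real.log (1 / δ)) := by ring
  rw [h4, h5]
  gcongr

end Run7.h523.WF
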