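import Pool.Agent.Run7.h523.WF.Slopes

set_option autoImplicit false

/-!
# From fronts in Euclidean coordinates to fronts in slope coordinates
-/

open MeasureTheory Set Metric Filter Topology
open scoped ENNReal NNReal Pointwise

namespace Run7.h523.WF

open Pool.Agent.H742R2.Kk (ins tl ins_zero tl_ins ins_eta inner_ins measurePreserving_ins ins_add
  ins_smul ins_apply_zero)

variable {d : ℕ}

/-- The local front condition at the direction `e`, at scale `ρ`. -/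
def Front {n : ℕ} (u : E n) (S : Set (sphere (0 : E n) 1)) (x : E n → E n) (α β : E n → ℝ)
    (e : E n) (ρ : ℝ) : Prop :=
  ∀ e' ∈ S, inner ℝ u e = inner ℝ u (e' : E n) → ‖e - e'‖ < ρ →
    ∀ s ∈ Icc (α e) (β e), ∀ s' ∈ Icc (α e') (β e'),
      ‖(x e + s • e) - (x e' + s' • (e' : E n))‖ < ρ →
      |inner ℝ u ((x e + s • e) - (x e' + s' • (e' : E n)))| ≤
        |inner ℝ u e| * ‖(x e + s • e) - (x e' + s' • (e' : E n))‖

theorem reduce (hd : 1 ≤ d) {u : E (d + 1)} (hu : ‖u‖ = 1)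
    {S : Set (sphere (0 : E (d + 1)) 1)} (hSm : MeasurableSet S)
    (hS : 0 < (volume : Measure (E (d + 1))).toSphere S)
    (x : E (d + 1) → E (d + 1)) (α β : E (d + 1) → ℝ)
    (hfront : ∀ e ∈ S, ∃ ρ > 0, Front u S x α β (e : E (d + 1)) ρ)
    (K : Set (E (d + 1)))
    (hK : ∀ e ∈ S, 0 < volume {s : ℝ | s ∈ Icc (α e) (β e) ∧ x e + s • (e : E (d + 1)) ∈ K}) :
    ∃ (L : E (d + 1) ≃ₗᵢ[ℝ] E (d + 1)) (t₀ T ρ₀ ρ₁ η : ℝ) (A : Set (E d)) (a : E d → E d),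
      0 < T ∧ 0 < ρ₀ ∧ 0 < ρ₁ ∧ 0 < η ∧ Big ρ₀ ρ₁ η A ∧
      (∀ v ∈ A, ∀ v' ∈ A, ‖v‖ = ‖v'‖ → Achr T (a v) v (a v') v') ∧
      (∀ v ∈ A, 0 < volume {t : ℝ | t ∈ Icc (T / 4) (T / 2) ∧ Phi L t₀ (a v + t • v, t) ∈ K}) ∧
      (∀ v ∈ A, ∀ t ∈ Icc (0 : ℝ) T, ∃ e ∈ S, ∃ s ∈ Icc (α e) (β e),
        Phi L t₀ (a v + t • v, t) = x e + s • (e : E (d + 1))) := by
  classical
  obtain ⟨L, hL⟩ := exists_rot u hu
  obtain ⟨ε, hε, hVm, hVpos⟩ := slopes_pos L hSm hS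
  obtain ⟨ρ₀, hρ₀, ρ₁, hρ₁, η, hη, hBig⟩ := big_of_pos hVm hVpos hd
  set V : Set (E d) := {v : E d | dir L ε v ∈ Subtype.val '' S} with hV
  set κ : E d → ℝ := fun v => ε * ‖ins 1 v‖⁻¹ with hκ
  have hκ0 : ∀ v, κ v ≠ 0 := by
    intro v
    have h1 : ε ≠ 0 := by
      rintro rfl
      simp at hε
    exact mul_ne_zero h1 (inv_ne_zero (norm_ins_pos v).ne')
  have hκabs : ∀ v, |κ v| = ‖ins 1 v‖⁻¹ := by
    intro v
    simp only [hκ]
    rw [abs_mul, hε, one_mul, abs_inv, abs_of_pos (norm_ins_pos v)]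
  have hdir : ∀ v, dir L ε v = κ v • L.symm (ins 1 v) := fun v => rfl
  set h : E d → ℝ := fun v => (L (x (dir L ε v))) 0 with hh
  set z : E d → E d := fun v => tl (L (x (dir L ε v))) with hz
  set a₀ : E d → E d := fun v => z v - h v • v with ha₀
  have hpt : ∀ v t, Phi L 0 (a₀ v + t • v, t) =
      x (dir L ε v) + ((t - h v) / κ v) • dir L ε v := by
    intro v t
    have e1 : x (dir L ε v) = L.symm (ins (h v) (z v)) := by
      simp only [hh, hz]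
      rw [ins_eta, L.symm_apply_apply]
    have e2 : ((t - h v) / κ v) • dir L ε v = L.symm (ins ((t - h v) * 1) ((t - h v) • v)) := by
      rw [hdir, smul_smul, div_mul_cancel₀ _ (hκ0 v), ins_smul, map_smul]
    rw [e2, e1, ← map_add, ← ins_add]
    unfold Phi
    simp only [ha₀]
    congr 2
    · ring
    · module
  have hshift : ∀ (q : ℝ) (v : E d) (t : ℝ), Phi L q ((a₀ v + q • v) + t • v, t) =
      Phi L 0 (a₀ v + (q + t) • v, q + t) := by
    intro q v t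
    unfold Phi
    simp only
    congr 2
    · ring
    · module
  have hinner : ∀ v, inner ℝ u (dir L ε v) = κ v := by
    intro v
    rw [hdir, inner_smul_right, inner_symm L hL, mul_one]
  -- the times of K
  set M : E d → Set ℝ := fun v => {t | (t - h v) / κ v ∈ Ioo (α (dir L ε v)) (β (dir L ε v)) ∧
    Phi L 0 (a₀ v + t • v, t) ∈ K} with hM
  have hMpos : ∀ v ∈ V, 0 < volume (M v) := by
    intro v hv
    obtain ⟨e, he, hev⟩ := hv
    have h1 := hK e he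
    rw [hev] at h1
    by_contra hcon
    have h2 : volume (M v) = 0 := by simpa using hcon
    have h3 : {s : ℝ | s ∈ Icc (α (dir L ε v)) (β (dir L ε v)) ∧
        x (dir L ε v) + s • dir L ε v ∈ K} ⊆
        ((fun s : ℝ => κ v * s) ⁻¹' ((fun t : ℝ => h v + t) ⁻¹' (M v))) ∪
          {α (dir L ε v), β (dir L ε v)} := by
      rintro s ⟨h4, h5⟩
      by_cases h6 : s = α (dir L ε v)
      · right; left; exact h6
      by_cases h7 : s = β (dir L ε v)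
      · right; right; exact h7
      left
      have h8 : (h v + κ v * s - h v) / κ v = s := by
        rw [add_sub_cancel_left, mul_div_cancel_left₀ _ (hκ0 v)]
      refine ⟨?_, ?_⟩
      · rw [h8]
        exact ⟨lt_of_le_of_ne h4.1 (Ne.symm h6), lt_of_le_of_ne h4.2 h7⟩
      · rw [hpt, h8]
        exact h5
    have h4 : volume ((fun s : ℝ => κ v * s) ⁻¹' ((fun t : ℝ => h v + t) ⁻¹' (M v))) = 0 := by
      rw [Real.volume_preimage_mul_left (hκ0 v), measure_preimage_add, h2, mul_zero]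
    have h5 : volume ({α (dir L ε v), β (dir L ε v)} : Set ℝ) = 0 :=
      (Set.toFinite _).measure_zero _
    exact h1.ne' (measure_mono_null h3 (measure_union_null h4 h5))
  -- pieces
  set B : ℚ × ℚ × ℚ × ℕ → Set (E d) := fun j => {v | v ∈ V ∧ 0 < (j.2.1 : ℝ) ∧
    0 < (j.2.2.1 : ℝ) ∧ (j.2.1 : ℝ) * ‖ins 1 v‖ < (j.2.2.1 : ℝ) / 8 ∧
    (∀ τ ∈ Icc (0 : ℝ) (j.2.1 : ℝ),
      ((j.1 : ℝ) + τ - h v) / κ v ∈ Icc (α (dir L ε v)) (β (dir L ε v))) ∧
    Front u S x α β (dir L ε v) (j.2.2.1 : ℝ) ∧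
    dist (dir L ε v, Phi L 0 (a₀ v + (j.1 : ℝ) • v, (j.1 : ℝ)))
      (TopologicalSpace.denseSeq (E (d + 1) × E (d + 1)) j.2.2.2) < (j.2.2.1 : ℝ) / 8 ∧
    0 < volume {t : ℝ | t ∈ Icc ((j.2.1 : ℝ) / 4) ((j.2.1 : ℝ) / 2) ∧
      Phi L (j.1 : ℝ) ((a₀ v + (j.1 : ℝ) • v) + t • v, t) ∈ K}} with hB
  have hcov : V ⊆ ⋃ j, B j := by
    intro v hv
    obtain ⟨e, he, hev⟩ := hv
    obtain ⟨ρ, hρ, hfr⟩ := hfront e he
    rw [hev] at hfr
    obtain ⟨ρ', hρ'0, hρ'⟩ := exists_rat_btwn hρ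
    have hfr' : Front u S x α β (dir L ε v) (ρ' : ℝ) := by
      intro e' he' h1 h2 s hs s' hs' h3
      exact hfr e' he' h1 (h2.trans hρ') s hs s' hs' (h3.trans hρ')
    have hwin : ∃ q T : ℚ, 0 < (T : ℝ) ∧ (T : ℝ) * ‖ins 1 v‖ < (ρ' : ℝ) / 8 ∧
        (∀ τ ∈ Icc (0 : ℝ) (T : ℝ),
          ((q : ℝ) + τ - h v) / κ v ∈ Icc (α (dir L ε v)) (β (dir L ε v))) ∧
        0 < volume {t : ℝ | t ∈ Icc ((T : ℝ) / 4) ((T : ℝ) / 2) ∧
          Phi L (q : ℝ) ((a₀ v + (q : ℝ) • v) + t • v, t) ∈ K} := by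
      by_contra hcon
      push Not at hcon
      have h1 : M v ⊆ ⋃ j : {j : ℚ × ℚ // 0 < (j.2 : ℝ) ∧ (j.2 : ℝ) * ‖ins 1 v‖ < (ρ' : ℝ) / 8 ∧
          (∀ τ ∈ Icc (0 : ℝ) (j.2 : ℝ),
          ((j.1 : ℝ) + τ - h v) / κ v ∈ Icc (α (dir L ε v)) (β (dir L ε v)))},
          (fun t : ℝ => -(j.1.1 : ℝ) + t) ⁻¹' {t : ℝ | t ∈ Icc ((j.1.2 : ℝ) / 4) ((j.1.2 : ℝ) / 2) ∧
          Phi L (j.1.1 : ℝ) ((a₀ v + (j.1.1 : ℝ) • v) + t • v, t) ∈ K} := by
        rintro t ⟨h2, h3⟩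
        have hop : IsOpen {t : ℝ | (t - h v) / κ v ∈ Ioo (α (dir L ε v)) (β (dir L ε v))} :=
          isOpen_Ioo.preimage (by fun_prop)
        obtain ⟨r, hr0, hr⟩ := Metric.isOpen_iff.1 hop t h2
        have hn := norm_ins_pos v
        have hmin : 0 < min r ((ρ' : ℝ) / (8 * ‖ins 1 v‖)) := lt_min hr0 (by positivity)
        obtain ⟨T, hT0, hT⟩ := exists_rat_btwn hmin
        obtain ⟨q, hq1, hq2⟩ := exists_rat_btwn (show t - (T : ℝ) / 2 < t - (T : ℝ) / 4 by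
          linarith)
        have hTr : (T : ℝ) < r := hT.trans_le (min_le_left _ _)
        have hTρ : (T : ℝ) * ‖ins 1 v‖ < (ρ' : ℝ) / 8 := by
          have h4 : (T : ℝ) < (ρ' : ℝ) / (8 * ‖ins 1 v‖) := hT.trans_le (min_le_right _ _)
          rw [lt_div_iff₀ (by positivity)] at h4
          rw [lt_div_iff₀ (by norm_num)]
          linarith
        have hwin : ∀ τ ∈ Icc (0 : ℝ) (T : ℝ),
            ((q : ℝ) + τ - h v) / κ v ∈ Icc (α (dir L ε v)) (β (dir L ε v)) := by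
          intro τ hτ
          have h5 : (q : ℝ) + τ ∈ ball t r := by
            rw [mem_ball, Real.dist_eq, abs_lt]
            constructor <;> linarith [hτ.1, hτ.2]
          exact Ioo_subset_Icc_self (hr h5)
        refine mem_iUnion.2 ⟨⟨(q, T), hT0, hTρ, hwin⟩, ?_⟩
        refine ⟨⟨?_, ?_⟩, ?_⟩
        · linarith
        · linarith
        · rw [hshift]
          have e : (q : ℝ) + (-(q : ℝ) + t) = t := by ring
          rw [e]
          exact h3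
      have h2 : volume (⋃ j : {j : ℚ × ℚ // 0 < (j.2 : ℝ) ∧ (j.2 : ℝ) * ‖ins 1 v‖ < (ρ' : ℝ) / 8 ∧
          (∀ τ ∈ Icc (0 : ℝ) (j.2 : ℝ),
          ((j.1 : ℝ) + τ - h v) / κ v ∈ Icc (α (dir L ε v)) (β (dir L ε v)))},
          (fun t : ℝ => -(j.1.1 : ℝ) + t) ⁻¹' {t : ℝ | t ∈ Icc ((j.1.2 : ℝ) / 4) ((j.1.2 : ℝ) / 2) ∧
          Phi L (j.1.1 : ℝ) ((a₀ v + (j.1.1 : ℝ) • v) + t • v, t) ∈ K}) = 0 := by
        refine measure_iUnion_null fun j => ?_
        rw [measure_preimage_add]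
        exact le_antisymm (hcon j.1.1 j.1.2 j.2.1 j.2.2.1 j.2.2.2) zero_le
      exact (hMpos v ⟨e, he, hev⟩).ne' (measure_mono_null h1 h2)
    obtain ⟨q, T, hT0, hTρ, hwin, hvol⟩ := hwin
    obtain ⟨i, hi⟩ := (TopologicalSpace.denseRange_denseSeq
      (E (d + 1) × E (d + 1))).exists_dist_lt
      (dir L ε v, Phi L 0 (a₀ v + (q : ℝ) • v, (q : ℝ))) (show (0:ℝ) < (ρ' : ℝ) / 8 by positivity)
    exact mem_iUnion.2 ⟨(q, T, ρ', i), ⟨e, he, hev⟩, hT0, hρ'0, hTρ, hwin, hfr', hi, hvol⟩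
  obtain ⟨⟨q, T, ρ', i⟩, η', hη', hBig'⟩ := hBig.exists_of_countable hη B hcov
  refine ⟨L, (q : ℝ), (T : ℝ), ρ₀, ρ₁, η', B (q, T, ρ', i), fun v => a₀ v + (q : ℝ) • v, ?_, hρ₀,
    hρ₁, hη', hBig', ?_, ?_, ?_⟩
  · by_contra hT
    have h1 : B (q, T, ρ', i) = ∅ := by
      rw [Set.eq_empty_iff_forall_notMem]
      intro v hv
      exact hT hv.2.1
    obtain ⟨j, hj⟩ : ∃ r : ℝ, r ∈ {r : ℝ | r ∈ Icc ρ₀ ρ₁ ∧
        ENNReal.ofReal η' ≤ sg d {ω | r • (ω : E d) ∈ B (q, T, ρ', i)}} := by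
      by_contra hc
      rw [not_exists] at hc
      have h2 := Set.eq_empty_iff_forall_notMem.2 hc
      unfold Big at hBig'
      rw [h2, measure_empty] at hBig'
      exact absurd hBig' (not_le.2 (ENNReal.ofReal_pos.2 hη'))
    obtain ⟨_, h3⟩ := hj
    rw [h1] at h3
    have h4 : {ω : sphere (0 : E d) 1 | j • (ω : E d) ∈ (∅ : Set (E d))} = ∅ := by ext; simp
    rw [h4, measure_empty] at h3
    exact absurd h3 (not_le.2 (ENNReal.ofReal_pos.2 hη'))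
  · rintro v ⟨hv, hT0, hρ'0, hTρ, hwin, hfr, hdist, _⟩ v' ⟨hv', _, _, hTρ', hwin', _, hdist', _⟩ hn
    simp only at hT0 hρ'0 hTρ hwin hfr hdist hTρ' hwin' hdist'
    obtain ⟨e', he', hev'⟩ := hv'
    intro s hs s' hs'
    have hnn : ‖ins 1 v‖ = ‖ins 1 v'‖ := by
      have h1 := norm_ins_sq (1 : ℝ) v
      have h2 := norm_ins_sq (1 : ℝ) v'
      rw [hn, ← h2] at h1
      exact (pow_left_inj₀ (norm_nonneg _) (norm_nonneg _) two_ne_zero).1 h1
    have hκκ : κ v = κ v' := by simp only [hκ]; rw [hnn]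
    rw [Prod.dist_eq, max_lt_iff] at hdist hdist'
    simp only at hdist hdist'
    have hpos : ∀ (w : E d) (σ : ℝ), Phi L 0 (a₀ w + ((q : ℝ) + σ) • w, (q : ℝ) + σ) =
        Phi L 0 (a₀ w + (q : ℝ) • w, (q : ℝ)) + σ • L.symm (ins 1 w) := by
      intro w σ
      rw [← map_smul, ← ins_smul]
      unfold Phi
      simp only
      rw [← map_add, ← ins_add]
      congr 2
      · ring
      · module
    have hn1 : ∀ (w : E d) (σ : ℝ), σ ∈ Icc (0 : ℝ) T → (T : ℝ) * ‖ins 1 w‖ < (ρ' : ℝ) / 8 →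
        dist (Phi L 0 (a₀ w + ((q : ℝ) + σ) • w, (q : ℝ) + σ))
          (Phi L 0 (a₀ w + (q : ℝ) • w, (q : ℝ))) < (ρ' : ℝ) / 8 := by
      intro w σ hσ hw
      rw [hpos, dist_eq_norm, add_sub_cancel_left, norm_smul, LinearIsometryEquiv.norm_map,
        Real.norm_eq_abs, abs_of_nonneg hσ.1]
      refine lt_of_le_of_lt ?_ hw
      have := norm_nonneg (ins 1 w)
      exact mul_le_mul_of_nonneg_right hσ.2 this
    set c := TopologicalSpace.denseSeq (E (d + 1) × E (d + 1)) i with hc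
    have hd1 := hn1 v s hs hTρ
    have hd2 := hn1 v' s' hs' hTρ'
    have hclose : ‖Phi L 0 (a₀ v + ((q : ℝ) + s) • v, (q : ℝ) + s) -
        Phi L 0 (a₀ v' + ((q : ℝ) + s') • v', (q : ℝ) + s')‖ < ρ' := by
      rw [← dist_eq_norm]
      calc _ ≤ dist (Phi L 0 (a₀ v + ((q : ℝ) + s) • v, (q : ℝ) + s))
            (Phi L 0 (a₀ v + (q : ℝ) • v, (q : ℝ))) +
            dist (Phi L 0 (a₀ v + (q : ℝ) • v, (q : ℝ))) c.2 +
            dist c.2 (Phi L 0 (a₀ v' + (q : ℝ) • v', (q : ℝ))) +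
            dist (Phi L 0 (a₀ v' + (q : ℝ) • v', (q : ℝ)))
              (Phi L 0 (a₀ v' + ((q : ℝ) + s') • v', (q : ℝ) + s')) :=
            dist_triangle4 _ _ _ _ |>.trans (by
              have := dist_triangle (Phi L 0 (a₀ v + ((q : ℝ) + s) • v, (q : ℝ) + s))
                (Phi L 0 (a₀ v + (q : ℝ) • v, (q : ℝ))) c.2
              linarith) |> fun h => h
        _ < ρ' := by
            rw [dist_comm c.2, dist_comm (Phi L 0 (a₀ v' + (q : ℝ) • v', (q : ℝ)))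
              (Phi L 0 (a₀ v' + ((q : ℝ) + s') • v', (q : ℝ) + s'))]
            linarith [hdist.2, hdist'.2]
    have hee : ‖dir L ε v - (e' : E (d + 1))‖ < ρ' := by
      rw [hev', ← dist_eq_norm]
      calc dist (dir L ε v) (dir L ε v') ≤ dist (dir L ε v) c.1 + dist c.1 (dir L ε v') :=
            dist_triangle _ _ _
        _ < ρ' := by
            rw [dist_comm c.1]
            linarith [hdist.1, hdist'.1]
    have hin : inner ℝ u (dir L ε v) = inner ℝ u (e' : E (d + 1)) := by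
      rw [hev', hinner, hinner, hκκ]
    have hmain := hfr e' he' hin hee (((q : ℝ) + s - h v) / κ v) (hwin s hs)
      (((q : ℝ) + s' - h v') / κ v') (by rw [hev']; exact hwin' s' hs')
    rw [hev', ← hpt, ← hpt] at hmain
    have hmain' := hmain hclose
    rw [inner_Phi_sub L hL, hinner, hκabs] at hmain'
    simp only at hmain'
    -- now algebra
    set D := Phi L 0 (a₀ v + ((q : ℝ) + s) • v, (q : ℝ) + s) -
        Phi L 0 (a₀ v' + ((q : ℝ) + s') • v', (q : ℝ) + s') with hD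
    have hDsq : ‖D‖ ^ 2 = (s - s') ^ 2 +
        ‖(a₀ v + (q : ℝ) • v + s • v) - (a₀ v' + (q : ℝ) • v' + s' • v')‖ ^ 2 := by
      rw [hD, norm_Phi_sub_sq]
      simp only
      congr 2
      · ring
      · congr 1; module
    have hnv := norm_ins_sq (1 : ℝ) v
    have hnp := norm_ins_pos v
    have e1 : (q : ℝ) + s - ((q : ℝ) + s') = s - s' := by ring
    rw [e1] at hmain'
    have h1 : |s - s'| * ‖ins 1 v‖ ≤ ‖D‖ := by
      rw [← div_eq_inv_mul, le_div_iff₀ hnp] at hmain'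
      exact hmain'
    have h2 : (|s - s'| * ‖ins 1 v‖) ^ 2 ≤ ‖D‖ ^ 2 :=
      pow_le_pow_left₀ (by positivity) h1 2
    rw [mul_pow, sq_abs, hnv, hDsq] at h2
    apply le_of_sq_le_sq _ (norm_nonneg _)
    rw [mul_pow, sq_abs]
    nlinarith
  · rintro v ⟨_, _, _, _, _, _, _, hvol⟩
    exact hvol
  · rintro v ⟨⟨e, he, hev⟩, _, _, _, hwin, _, _, _⟩ t ht
    refine ⟨e, he, ((q : ℝ) + t - h v) / κ v, ?_, ?_⟩
    · rw [hev]; exact hwin t ht
    · rw [hshift, hpt, hev]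

end Run7.h523.WF
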