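import Pool.Agent.Run7.h523.WF.Euclid

set_option autoImplicit false

/-!
# From directions to slopes
-/

open MeasureTheory Set Metric Filter Topology
open scoped ENNReal NNReal Pointwise

namespace Run7.h523.WF

open Pool.Agent.H742R2.Kk (ins tl ins_zero tl_ins ins_eta inner_ins measurePreserving_ins ins_add
  ins_smul ins_apply_zero)

variable {d : ℕ}

/-- The direction with slope `v`, with sign `ε`. -/
noncomputable def dir (L : E (d + 1) ≃ₗᵢ[ℝ] E (d + 1)) (ε : ℝ) (v : E d) : E (d + 1) :=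
  (ε * ‖ins 1 v‖⁻¹) • L.symm (ins 1 v)

theorem norm_ins_pos (v : E d) : 0 < ‖ins 1 v‖ := by
  have h := norm_ins_sq (1 : ℝ) v
  by_contra hc
  have h1 : ‖ins 1 v‖ = 0 := le_antisymm (not_lt.1 hc) (norm_nonneg _)
  rw [h1] at h
  nlinarith [sq_nonneg ‖v‖]

theorem norm_dir (L : E (d + 1) ≃ₗᵢ[ℝ] E (d + 1)) {ε : ℝ} (hε : |ε| = 1) (v : E d) :
    ‖dir L ε v‖ = 1 := by
  unfold dir
  have h := norm_ins_pos v
  rw [norm_smul, LinearIsometryEquiv.norm_map, Real.norm_eq_abs, abs_mul, hε, one_mul, abs_inv,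
    abs_of_pos h, inv_mul_cancel₀ h.ne']

theorem measurable_dir (L : E (d + 1) ≃ₗᵢ[ℝ] E (d + 1)) (ε : ℝ) : Measurable (dir L ε) := by
  unfold dir
  have h1 : Measurable (fun v : E d => ins 1 v) :=
    Pool.Agent.H742R2.Kk.measurable_ins.comp (measurable_const.prodMk measurable_id)
  exact ((h1.norm.inv).const_mul ε).smul (L.symm.continuous.measurable.comp h1)

/-- A set of directions of positive measure gives a set of slopes of positive measure. -/
theorem slopes_pos (L : E (d + 1) ≃ₗᵢ[ℝ] E (d + 1)) {S : Set (sphere (0 : E (d + 1)) 1)}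
    (hSm : MeasurableSet S) (hS : 0 < (volume : Measure (E (d + 1))).toSphere S) :
    ∃ ε : ℝ, |ε| = 1 ∧ MeasurableSet {v : E d | dir L ε v ∈ Subtype.val '' S} ∧
      0 < volume {v : E d | dir L ε v ∈ Subtype.val '' S} := by
  classical
  set S' : Set (E (d + 1)) := Subtype.val '' S with hS'
  have hS'm : MeasurableSet S' :=
    (MeasurableEmbedding.subtype_coe isClosed_sphere.measurableSet).measurableSet_image.2 hSm
  have hVm : ∀ ε : ℝ, MeasurableSet {v : E d | dir L ε v ∈ S'} := fun ε => measurable_dir L ε hS'm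
  -- the cone
  set C : Set (E (d + 1)) := {x | ‖x‖⁻¹ • x ∈ S'} with hC
  have hCm : MeasurableSet C := by
    have : Measurable (fun x : E (d + 1) => ‖x‖⁻¹ • x) := by fun_prop
    exact this hS'm
  have hCpos : 0 < volume C := by
    rw [Measure.toSphere_apply' _ hSm] at hS
    have h1 : 0 < volume (Ioo (0 : ℝ) 1 • (Subtype.val '' S)) := by
      by_contra hcon
      have h2 : volume (Ioo (0 : ℝ) 1 • (Subtype.val '' S)) = 0 := by simpa using hcon
      rw [h2, mul_zero] at hS
      exact lt_irrefl _ hS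
    refine h1.trans_le (measure_mono ?_)
    rintro _ ⟨ρ, hρ, x, hx, rfl⟩
    have hx1 : ‖x‖ = 1 := by
      obtain ⟨y, _, rfl⟩ := hx
      exact mem_sphere_zero_iff_norm.1 y.2
    rw [hC, Set.mem_ofPred_eq]
    simp only
    rw [norm_smul, hx1, mul_one, Real.norm_eq_abs, abs_of_pos hρ.1, smul_smul,
      inv_mul_cancel₀ hρ.1.ne', one_smul]
    exact hx
  -- Fubini
  have h1 : volume (Phi L 0 ⁻¹' C) = volume C :=
    (measurePreserving_Phi L 0).measure_preimage hCm.nullMeasurableSet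
  have hPm : MeasurableSet (Phi L 0 ⁻¹' C) := (measurePreserving_Phi L 0).measurable hCm
  obtain ⟨t, ht0, ht⟩ : ∃ t : ℝ, t ≠ 0 ∧
      volume ((fun z : E d => (z, t)) ⁻¹' (Phi L 0 ⁻¹' C)) ≠ 0 := by
    by_contra hcon
    push Not at hcon
    have h2 : volume (Phi L 0 ⁻¹' C) = 0 := by
      rw [Measure.volume_eq_prod, Measure.prod_apply_symm hPm, lintegral_eq_zero_iff
        (measurable_measure_prodMk_right hPm)]
      have h3 : ∀ᵐ t : ℝ, t ≠ 0 := by
        rw [ae_iff]
        simp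
      filter_upwards [h3] with t ht
      exact hcon t ht
    rw [h1] at h2
    exact hCpos.ne' h2
  set ε : ℝ := t / |t| with hε
  have hta : 0 < |t| := abs_pos.2 ht0
  have hε1 : |ε| = 1 := by rw [hε, abs_div, abs_abs, div_self hta.ne']
  refine ⟨ε, hε1, hVm ε, ?_⟩
  have h2 : (fun z : E d => (z, t)) ⁻¹' (Phi L 0 ⁻¹' C) ⊆
      (fun z : E d => t⁻¹ • z) ⁻¹' {v : E d | dir L ε v ∈ S'} := by
    intro z hz
    rw [mem_preimage, mem_preimage, hC, Set.mem_ofPred_eq] at hz
    rw [mem_preimage, Set.mem_ofPred_eq]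
    have e1 : Phi L 0 (z, t) = t • L.symm (ins 1 (t⁻¹ • z)) := by
      unfold Phi
      simp only [zero_add]
      rw [← map_smul, ← ins_smul, mul_one, smul_smul, mul_inv_cancel₀ ht0, one_smul]
    have e2 : ‖Phi L 0 (z, t)‖⁻¹ • Phi L 0 (z, t) = dir L ε (t⁻¹ • z) := by
      rw [e1, norm_smul, LinearIsometryEquiv.norm_map, Real.norm_eq_abs, smul_smul, dir, hε]
      congr 1
      rw [mul_inv]
      field_simp
    rw [← e2]
    exact hz
  by_contra hcon
  have h3 : volume {v : E d | dir L ε v ∈ S'} = 0 := by simpa using hcon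
  apply ht
  refine measure_mono_null h2 ?_
  rw [Measure.addHaar_preimage_smul _ (inv_ne_zero ht0), h3, mul_zero]

end Run7.h523.WF
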